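import Pool.Agent.H346R2.Pi.Alg

/-!
Size of the leading coefficient `g n (14 n)`.
-/

open Polynomial

namespace Pool.Agent.H346R2.Pi

/-- nonnegative coefficients -/
def NN (f : PowerSeries ℝ) : Prop := ∀ i, 0 ≤ PowerSeries.coeff i f

lemma NN.mul {f k : PowerSeries ℝ} (hf : NN f) (hk : NN k) : NN (f * k) := by
  intro i
  rw [PowerSeries.coeff_mul]
  exact Finset.sum_nonneg fun ij _ => mul_nonneg (hf _) (hk _)

lemma NN.one : NN 1 := by
  intro i
  rw [PowerSeries.coeff_one]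
  split_ifs <;> norm_num

lemma NN.pow {f : PowerSeries ℝ} (hf : NN f) (m : ℕ) : NN (f ^ m) := by
  induction m with
  | zero => rw [pow_zero]; exact NN.one
  | succ m ih => rw [pow_succ]; exact ih.mul hf

lemma NN.add {f k : PowerSeries ℝ} (hf : NN f) (hk : NN k) : NN (f + k) := by
  intro i
  rw [map_add]
  exact add_nonneg (hf i) (hk i)

lemma NN.natMul {f : PowerSeries ℝ} (hf : NN f) (m : ℕ) : NN ((m : PowerSeries ℝ) * f) := by
  rw [← nsmul_eq_mul]
  intro i
  rw [map_nsmul]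
  exact nsmul_nonneg (hf i) m

/-- partial sums -/
noncomputable def Sm (r : ℝ) (m : ℕ) (f : PowerSeries ℝ) : ℝ :=
  ∑ i ∈ Finset.range (m + 1), PowerSeries.coeff i f * r ^ i

lemma Sm_nonneg {r : ℝ} (hr : 0 ≤ r) (m : ℕ) {f : PowerSeries ℝ} (hf : NN f) : 0 ≤ Sm r m f :=
  Finset.sum_nonneg fun i _ => mul_nonneg (hf i) (pow_nonneg hr i)

lemma Sm_mul {r : ℝ} (hr : 0 ≤ r) (m : ℕ) {f k : PowerSeries ℝ} (hf : NN f) (hk : NN k) :
    Sm r m (f * k) ≤ Sm r m f * Sm r m k := by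
  classical
  have e1 : Sm r m (f * k) = ∑ i ∈ Finset.range (m + 1), ∑ p ∈ Finset.HasAntidiagonal.antidiagonal i,
      (PowerSeries.coeff p.1 f * r ^ p.1) * (PowerSeries.coeff p.2 k * r ^ p.2) := by
    unfold Sm
    apply Finset.sum_congr rfl
    intro i _
    rw [PowerSeries.coeff_mul, Finset.sum_mul]
    apply Finset.sum_congr rfl
    intro p hp
    have : p.1 + p.2 = i := by simpa using hp
    rw [← this, pow_add]; ring
  rw [e1, ← Finset.sum_biUnion]
  · unfold Sm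
    rw [Finset.sum_mul_sum, ← Finset.sum_product']
    apply Finset.sum_le_sum_of_subset_of_nonneg
    · intro p hp
      simp only [Finset.mem_biUnion, Finset.mem_range] at hp
      obtain ⟨i, hi, hp⟩ := hp
      have : p.1 + p.2 = i := by simpa using hp
      simp only [Finset.mem_product, Finset.mem_range]
      omega
    · intro p _ _
      exact mul_nonneg (mul_nonneg (hf _) (pow_nonneg hr _)) (mul_nonneg (hk _) (pow_nonneg hr _))
  · intro i _ j _ hij
    rw [Function.onFun, Finset.disjoint_left]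
    intro p hp hq
    have h1 : p.1 + p.2 = i := by simpa using hp
    have h2 : p.1 + p.2 = j := by simpa using hq
    exact hij (h1.symm.trans h2)

lemma Sm_pow {r : ℝ} (hr : 0 ≤ r) (m : ℕ) {f : PowerSeries ℝ} (hf : NN f) (N : ℕ) :
    Sm r m (f ^ N) ≤ Sm r m f ^ N := by
  induction N with
  | zero =>
    rw [pow_zero, pow_zero, Sm]
    rw [Finset.sum_range_succ']
    simp [PowerSeries.coeff_one]
  | succ N ih =>
    rw [pow_succ, pow_succ]
    exact (Sm_mul hr m (hf.pow N) hf).trans (mul_le_mul_of_nonneg_right ih (Sm_nonneg hr m hf))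

lemma Sm_poly {r : ℝ} (hr : 0 ≤ r) (m : ℕ) (P : ℝ[X]) (hP : NN (P : PowerSeries ℝ)) :
    Sm r m (P : PowerSeries ℝ) ≤ P.eval r := by
  rw [Polynomial.eval_eq_sum_range' (n := max (m + 1) (P.natDegree + 1)) (by omega), Sm]
  simp only [Polynomial.coeff_coe]
  apply Finset.sum_le_sum_of_subset_of_nonneg
  · intro i hi
    simp only [Finset.mem_range] at hi ⊢
    omega
  · intro i _ _
    have := hP i
    rw [Polynomial.coeff_coe] at this
    exact mul_nonneg this (pow_nonneg hr _)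

lemma NN_geo : NN (geo (1 : ℝ)) := by
  intro i; simp [geo]

lemma Sm_geo {r : ℝ} (hr : 0 ≤ r) (hr1 : r < 1) (m : ℕ) : Sm r m (geo (1 : ℝ)) ≤ 1 / (1 - r) := by
  have h : Sm r m (geo (1 : ℝ)) = ∑ i ∈ Finset.range (m + 1), r ^ i := by
    unfold Sm; apply Finset.sum_congr rfl; intro i _; simp [geo]
  rw [h, geom_sum_eq hr1.ne, ← neg_sub (1 : ℝ) r, ← neg_sub (1 : ℝ), neg_div_neg_eq]
  have : 0 < 1 - r := by linarith
  gcongr
  have := pow_nonneg hr (m + 1)
  linarith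

lemma NN_one_add : NN ((1 + X : ℝ[X]) : PowerSeries ℝ) := by
  intro i
  rw [Polynomial.coeff_coe, Polynomial.coeff_add, Polynomial.coeff_one, Polynomial.coeff_X]
  split_ifs <;> norm_num

/-- the quartic `Q` -/
noncomputable def QQ : ℝ[X] := (1 + 2 * X + 2 * X ^ 2) * (2 + 2 * X + X ^ 2)

lemma QQ_eq : QQ = C 2 + C 6 * X + C 9 * X ^ 2 + C 6 * X ^ 3 + C 2 * X ^ 4 := by
  unfold QQ
  simp only [map_ofNat]; ring

lemma NN_poly4 (a b c d e : ℝ) (ha : 0 ≤ a) (hb : 0 ≤ b) (hc : 0 ≤ c) (hd : 0 ≤ d) (he : 0 ≤ e) :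
    NN ((C a + C b * X + C c * X ^ 2 + C d * X ^ 3 + C e * X ^ 4 : ℝ[X]) : PowerSeries ℝ) := by
  intro i
  rw [Polynomial.coeff_coe]
  simp only [Polynomial.coeff_add, Polynomial.coeff_C_mul, Polynomial.coeff_X_pow, Polynomial.coeff_X,
    Polynomial.coeff_C]
  have t1 : ∀ (p : Prop) [Decidable p], 0 ≤ (if p then (1 : ℝ) else 0) := by
    intro p _; split_ifs <;> norm_num
  have t2 : 0 ≤ (if i = 0 then a else 0) := by split_ifs <;> linarith
  have := t1 (1 = i)
  have := t1 (i = 2)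
  have := t1 (i = 3)
  have := t1 (i = 4)
  positivity

lemma NN_QQ : NN (QQ : PowerSeries ℝ) := by
  rw [QQ_eq]; exact NN_poly4 _ _ _ _ _ (by norm_num) (by norm_num) (by norm_num) (by norm_num) (by norm_num)

lemma Num_coe (n : ℕ) : (Num ℝ n : PowerSeries ℝ) =
    ((1 + X : ℝ[X]) : PowerSeries ℝ) ^ (18 * n) * (QQ : PowerSeries ℝ) ^ (6 * n) := by
  rw [Num, Polynomial.coe_mul, Polynomial.coe_pow, Polynomial.coe_pow, QQ]

lemma NN_Num (n : ℕ) : NN (Num ℝ n : PowerSeries ℝ) := by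
  rw [Num_coe]; exact (NN_one_add.pow _).mul (NN_QQ.pow _)

lemma NN_G (n : ℕ) : NN (G ℝ n) := (NN_Num n).mul (NN_geo.pow _)

/-- real version of the coefficients -/
noncomputable def gr (n j : ℕ) : ℝ := PowerSeries.coeff j (G ℝ n)

lemma gr_eq (n j : ℕ) : gr n j = (g n j : ℝ) := coeff_G n j

lemma gr_nonneg (n j : ℕ) : 0 ≤ gr n j := NN_G n j

lemma gr_upper (n m : ℕ) (r : ℝ) (hr : 0 < r) (hr1 : r < 1) :
    gr n m * r ^ m ≤ ((1 + r) ^ 18 * ((1 + 2 * r + 2 * r ^ 2) * (2 + 2 * r + r ^ 2)) ^ 6 / (1 - r) ^ 14) ^ n := by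
  have h1 : gr n m * r ^ m ≤ Sm r m (G ℝ n) := by
    unfold Sm gr
    exact Finset.single_le_sum (f := fun i => PowerSeries.coeff i (G ℝ n) * r ^ i)
      (fun i _ => mul_nonneg (NN_G n i) (pow_nonneg hr.le i)) (Finset.self_mem_range_succ m)
  have h2 : Sm r m (G ℝ n) ≤ (Num ℝ n).eval r * (1 / (1 - r)) ^ (14 * n) := by
    refine (Sm_mul hr.le m (NN_Num n) (NN_geo.pow _)).trans ?_
    apply mul_le_mul (Sm_poly hr.le m _ (NN_Num n)) _ (Sm_nonneg hr.le m (NN_geo.pow _))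
    · exact (Sm_nonneg hr.le m (NN_Num n)).trans (Sm_poly hr.le m _ (NN_Num n))
    · refine (Sm_pow hr.le m NN_geo _).trans ?_
      exact pow_le_pow_left₀ (Sm_nonneg hr.le m NN_geo) (Sm_geo hr.le hr1 m) _
  refine h1.trans (h2.trans (le_of_eq ?_))
  rw [Num]
  simp only [Polynomial.eval_add, Polynomial.eval_mul, Polynomial.eval_pow, Polynomial.eval_X,
        Polynomial.eval_one, Polynomial.eval_ofNat]
  have key : ∀ A B C : ℝ, A ^ (18 * n) * B ^ (6 * n) * (1 / C) ^ (14 * n) = (A ^ 18 * B ^ 6 / C ^ 14) ^ n := by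
    intro A B C
    rw [div_pow (A ^ 18 * B ^ 6), mul_pow (A ^ 18), ← pow_mul, ← pow_mul, ← pow_mul, one_div, inv_pow,
      ← div_eq_mul_inv]
  exact key _ _ _

lemma coeff_mul_geo (f : PowerSeries ℝ) (j : ℕ) :
    PowerSeries.coeff j (f * geo (1 : ℝ)) = ∑ i ∈ Finset.range (j + 1), PowerSeries.coeff i f := by
  rw [PowerSeries.coeff_mul, Finset.Nat.sum_antidiagonal_eq_sum_range_succ_mk]
  apply Finset.sum_congr rfl
  intro i _
  simp [geo]

lemma gr_mono (n : ℕ) (hn : 0 < n) {i j : ℕ} (hij : i ≤ j) : gr n i ≤ gr n j := by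
  have e : G ℝ n = ((Num ℝ n : PowerSeries ℝ) * geo (1 : ℝ) ^ (14 * n - 1)) * geo (1 : ℝ) := by
    rw [G, mul_assoc, ← pow_succ]
    congr 2; omega
  unfold gr
  rw [e, coeff_mul_geo, coeff_mul_geo]
  apply Finset.sum_le_sum_of_subset_of_nonneg
  · intro a ha
    simp only [Finset.mem_range] at ha ⊢
    omega
  · intro a _ _
    exact ((NN_Num n).mul (NN_geo.pow _)) a

lemma gr_pos (n : ℕ) (hn : 0 < n) (j : ℕ) : 0 < gr n j := by
  refine lt_of_lt_of_le ?_ (gr_mono n hn (Nat.zero_le j))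
  unfold gr
  rw [PowerSeries.coeff_zero_eq_constantCoeff_apply, G, map_mul, map_pow]
  have h1 : PowerSeries.constantCoeff (geo (1 : ℝ)) = 1 := by
    rw [← PowerSeries.coeff_zero_eq_constantCoeff_apply]; simp [geo]
  have h2 : PowerSeries.constantCoeff (Num ℝ n : PowerSeries ℝ) = 2 ^ (6 * n) := by
    rw [← PowerSeries.coeff_zero_eq_constantCoeff_apply, Polynomial.coeff_coe,
      Polynomial.coeff_zero_eq_eval_zero, Num]
    simp
  rw [h1, h2]
  positivity

lemma geo_deriv : PowerSeries.derivative ℝ (geo (1 : ℝ)) = geo 1 ^ 2 := by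
  have h := congrArg (PowerSeries.derivative ℝ) (geo_mul (1 : ℝ))
  rw [Derivation.leibniz] at h
  simp only [map_one, one_mul, map_sub, PowerSeries.derivative_X, smul_eq_mul] at h
  have h2 : (PowerSeries.derivative ℝ) (1 : PowerSeries ℝ) = 0 := PowerSeries.derivative_one
  rw [h2] at h
  have hg := geo_mul (1 : ℝ)
  rw [map_one, one_mul] at hg
  have h3 : (1 - PowerSeries.X) * PowerSeries.derivative ℝ (geo (1 : ℝ)) = geo 1 := by
    linear_combination h
  calc PowerSeries.derivative ℝ (geo (1 : ℝ))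
      = geo 1 * ((1 - PowerSeries.X) * PowerSeries.derivative ℝ (geo (1 : ℝ))) := by
        rw [← mul_assoc, hg, one_mul]
    _ = geo 1 ^ 2 := by rw [h3, sq]

/-- `36 n F - F'` has nonnegative coefficients, `F = Num` -/
lemma NN_deriv (n : ℕ) (hn : 0 < n) :
    NN (((36 * n : ℕ) : PowerSeries ℝ) * (Num ℝ n : PowerSeries ℝ)
      - PowerSeries.derivative ℝ (Num ℝ n : PowerSeries ℝ)) := by
  have hd1 : PowerSeries.derivative ℝ ((1 + X : ℝ[X]) : PowerSeries ℝ) = 1 := by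
    rw [PowerSeries.derivative_coe]
    simp
  have hd2 : PowerSeries.derivative ℝ (QQ : PowerSeries ℝ)
      = ((C 6 + C 18 * X + C 18 * X ^ 2 + C 8 * X ^ 3 : ℝ[X]) : PowerSeries ℝ) := by
    rw [PowerSeries.derivative_coe, QQ_eq]
    congr 1
    simp only [Polynomial.derivative_add, Polynomial.derivative_mul, Polynomial.derivative_C,
      Polynomial.derivative_X, Polynomial.derivative_X_pow, zero_mul, zero_add, mul_one]
    simp only [map_ofNat, map_natCast]
    norm_num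
    ring
  obtain ⟨a, ha⟩ : ∃ a, 18 * n = a + 1 := ⟨18 * n - 1, by omega⟩
  obtain ⟨b, hb⟩ : ∃ b, 6 * n = b + 1 := ⟨6 * n - 1, by omega⟩
  have e : ((36 * n : ℕ) : PowerSeries ℝ) * (Num ℝ n : PowerSeries ℝ)
      - PowerSeries.derivative ℝ (Num ℝ n : PowerSeries ℝ)
      = ((a + 1 : ℕ) : PowerSeries ℝ) * (((1 + X : ℝ[X]) : PowerSeries ℝ) ^ a * (QQ : PowerSeries ℝ) ^ (b + 1)
          * (X : ℝ[X]))
        + ((b + 1 : ℕ) : PowerSeries ℝ) * (((1 + X : ℝ[X]) : PowerSeries ℝ) ^ (a + 1) * (QQ : PowerSeries ℝ) ^ b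
          * ((C 0 + C 0 * X + C 9 * X ^ 2 + C 10 * X ^ 3 + C 6 * X ^ 4 : ℝ[X]) : PowerSeries ℝ)) := by
    have hcast : ((36 * n : ℕ) : PowerSeries ℝ) = ((a + 1 : ℕ) : PowerSeries ℝ) + 3 * ((b + 1 : ℕ) : PowerSeries ℝ) := by
      rw [← ha, ← hb]; push_cast; ring
    have hX : ((X : ℝ[X]) : PowerSeries ℝ) = ((1 + X : ℝ[X]) : PowerSeries ℝ) - 1 := by
      simp
    have hR : ((C 0 + C 0 * X + C 9 * X ^ 2 + C 10 * X ^ 3 + C 6 * X ^ 4 : ℝ[X]) : PowerSeries ℝ)
        = 3 * (QQ : PowerSeries ℝ)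
          - ((C 6 + C 18 * X + C 18 * X ^ 2 + C 8 * X ^ 3 : ℝ[X]) : PowerSeries ℝ) := by
      rw [QQ_eq, show (3 : PowerSeries ℝ) = ((C 3 : ℝ[X]) : PowerSeries ℝ) by rw [Polynomial.coe_C]; rfl,
        ← Polynomial.coe_mul, ← Polynomial.coe_sub]
      congr 1
      simp only [map_ofNat, map_zero]; ring
    rw [Num_coe, Derivation.leibniz, PowerSeries.derivative_pow, PowerSeries.derivative_pow, hd1, hd2,
      hcast, hX, hR, ha, hb]
    simp only [smul_eq_mul, Nat.add_sub_cancel]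
    ring
  rw [e]
  apply NN.add
  · apply NN.natMul
    refine ((NN_one_add.pow _).mul (NN_QQ.pow _)).mul ?_
    intro i
    rw [Polynomial.coeff_coe, Polynomial.coeff_X]
    split_ifs <;> norm_num
  · apply NN.natMul
    exact ((NN_one_add.pow _).mul (NN_QQ.pow _)).mul
      (NN_poly4 _ _ _ _ _ (by norm_num) (by norm_num) (by norm_num) (by norm_num) (by norm_num))

lemma gr_step (n : ℕ) (hn : 0 < n) (j : ℕ) (hj : 14 * n ≤ j) :
    gr n (j + 1) ≤ (14 * n + 3) * gr n j := by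
  have hD : PowerSeries.derivative ℝ (G ℝ n)
      = PowerSeries.derivative ℝ (Num ℝ n : PowerSeries ℝ) * geo (1 : ℝ) ^ (14 * n)
        + ((14 * n : ℕ) : PowerSeries ℝ) * (G ℝ n * geo (1 : ℝ)) := by
    obtain ⟨a, ha⟩ : ∃ a, 14 * n = a + 1 := ⟨14 * n - 1, by omega⟩
    rw [G, Derivation.leibniz, PowerSeries.derivative_pow, geo_deriv, ha]
    simp only [smul_eq_mul, Nat.add_sub_cancel]
    ring
  have h1 : ((j : ℝ) + 1) * gr n (j + 1)
      = PowerSeries.coeff j (PowerSeries.derivative ℝ (G ℝ n)) := by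
    rw [PowerSeries.coeff_derivative, gr]; ring
  have h2 : PowerSeries.coeff j (PowerSeries.derivative ℝ (Num ℝ n : PowerSeries ℝ) * geo (1 : ℝ) ^ (14 * n))
      ≤ (36 * n) * gr n j := by
    have h3 := ((NN_deriv n hn).mul (NN_geo.pow (14 * n))) j
    rw [sub_mul, mul_assoc, ← G, map_sub, ← nsmul_eq_mul, map_nsmul, nsmul_eq_mul] at h3
    push_cast at h3
    rw [gr]
    linarith
  have h4 : PowerSeries.coeff j (((14 * n : ℕ) : PowerSeries ℝ) * (G ℝ n * geo (1 : ℝ)))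
      ≤ (14 * n) * ((j + 1) * gr n j) := by
    rw [← nsmul_eq_mul, map_nsmul, nsmul_eq_mul, coeff_mul_geo]
    push_cast
    apply mul_le_mul_of_nonneg_left _ (by positivity)
    calc ∑ i ∈ Finset.range (j + 1), PowerSeries.coeff i (G ℝ n)
        ≤ ∑ i ∈ Finset.range (j + 1), gr n j := by
          apply Finset.sum_le_sum
          intro i hi
          exact gr_mono n hn (by have := Finset.mem_range.mp hi; omega)
      _ = (j + 1) * gr n j := by simp
  rw [hD, map_add] at h1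
  have hj0 : (0 : ℝ) < (j : ℝ) + 1 := by positivity
  have hg := gr_nonneg n j
  have hjn : (14 : ℝ) * n ≤ j := by exact_mod_cast hj
  have h5 : ((j : ℝ) + 1) * gr n (j + 1) ≤ ((j : ℝ) + 1) * ((14 * n + 3) * gr n j) := by
    have h6 : (36 * n : ℝ) * gr n j ≤ ((j : ℝ) + 1) * 3 * gr n j := by
      apply mul_le_mul_of_nonneg_right _ hg
      linarith
    calc ((j : ℝ) + 1) * gr n (j + 1) ≤ (36 * n) * gr n j + (14 * n) * ((j + 1) * gr n j) := by
          rw [h1]; exact add_le_add h2 h4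
      _ ≤ ((j : ℝ) + 1) * 3 * gr n j + (14 * n) * ((j + 1) * gr n j) := by linarith
      _ = _ := by ring
  exact le_of_mul_le_mul_left h5 hj0

lemma gr_steps (n : ℕ) (hn : 0 < n) (m : ℕ) :
    gr n (14 * n + m) ≤ (14 * n + 3) ^ m * gr n (14 * n) := by
  induction m with
  | zero => simp
  | succ m ih =>
    rw [← add_assoc]
    refine (gr_step n hn _ (by omega)).trans ?_
    calc (14 * (n : ℝ) + 3) * gr n (14 * n + m) ≤ (14 * n + 3) * ((14 * n + 3) ^ m * gr n (14 * n)) := by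
          gcongr
      _ = _ := by ring

lemma G_succ (n : ℕ) : G ℝ (n + 1) = G ℝ n * G ℝ 1 := by
  unfold G Num
  simp only [Polynomial.coe_mul, Polynomial.coe_pow]
  rw [show 18 * (n + 1) = 18 * n + 18 * 1 by ring, show 6 * (n + 1) = 6 * n + 6 * 1 by ring,
    show 14 * (n + 1) = 14 * n + 14 * 1 by ring, pow_add, pow_add, pow_add]
  ring

lemma gr_ratio (n : ℕ) (hn : 0 < n) :
    gr (n + 1) (14 * (n + 1)) ≤ 2 ^ 18 * 25 ^ 6 * (14 * n + 15) ^ 28 * gr n (14 * n) := by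
  have h1 : gr (n + 1) (14 * (n + 1)) ≤ gr n (14 * n + 14) * Sm 1 (14 * (n + 1)) (G ℝ 1) := by
    unfold gr
    rw [G_succ, mul_comm (G ℝ n), PowerSeries.coeff_mul, Finset.Nat.sum_antidiagonal_eq_sum_range_succ_mk,
      Sm, Finset.mul_sum]
    apply Finset.sum_le_sum
    intro i hi
    rw [one_pow, mul_one, mul_comm]
    apply mul_le_mul_of_nonneg_right _ (NN_G 1 i)
    exact gr_mono n hn (by omega)
  have h2 : Sm 1 (14 * (n + 1)) (G ℝ 1) ≤ 2 ^ 18 * 25 ^ 6 * (14 * n + 15) ^ 14 := by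
    refine (Sm_mul zero_le_one _ (NN_Num 1) (NN_geo.pow _)).trans ?_
    apply mul_le_mul
    · refine (Sm_poly zero_le_one _ _ (NN_Num 1)).trans (le_of_eq ?_)
      rw [Num]
      simp only [Polynomial.eval_add, Polynomial.eval_mul, Polynomial.eval_pow, Polynomial.eval_X,
        Polynomial.eval_one, Polynomial.eval_ofNat]
      norm_num
    · refine (Sm_pow zero_le_one _ NN_geo _).trans ?_
      rw [mul_one]
      apply pow_le_pow_left₀ (Sm_nonneg zero_le_one _ NN_geo)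
      apply le_of_eq
      unfold Sm
      have : ∀ i ∈ Finset.range (14 * (n + 1) + 1), PowerSeries.coeff i (geo (1 : ℝ)) * 1 ^ i = 1 := by
        intro i _; simp [geo]
      rw [Finset.sum_congr rfl this]
      simp
      ring
    · exact Sm_nonneg zero_le_one _ (NN_geo.pow _)
    · positivity
  have h3 := gr_steps n hn 14
  have hg := gr_nonneg n (14 * n)
  calc gr (n + 1) (14 * (n + 1)) ≤ gr n (14 * n + 14) * Sm 1 (14 * (n + 1)) (G ℝ 1) := h1
    _ ≤ ((14 * n + 3) ^ 14 * gr n (14 * n)) * (2 ^ 18 * 25 ^ 6 * (14 * n + 15) ^ 14) := by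
        apply mul_le_mul h3 h2 (Sm_nonneg zero_le_one _ (NN_G 1))
        positivity
    _ ≤ ((14 * n + 15) ^ 14 * gr n (14 * n)) * (2 ^ 18 * 25 ^ 6 * (14 * n + 15) ^ 14) := by
        gcongr
        norm_num
    _ = _ := by ring

end Pool.Agent.H346R2.Pi
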