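import Pool.Agent.H346R2.Pi.Final

/-!
Digit form for other bases.
-/

open Filter

namespace Pool.Agent.H346R2.Pi

lemma floor_step_b (b : ℕ) (hb : 0 < b) (z : ℝ) : ⌊z * b⌋ = b * ⌊z⌋ + ⌊z * b⌋ % b := by
  have hbR : (b : ℝ) ≠ 0 := by exact_mod_cast hb.ne'
  have h1 : ⌊z * b⌋ / (b : ℤ) = ⌊z⌋ := by
    rw [← Int.floor_div_natCast (z * b) b]
    congr 1
    field_simp
  rw [← h1]
  exact (Int.mul_ediv_add_emod _ _).symm

lemma run_imp_b (x : ℝ) (b : ℕ) (hb : 0 < b) (N s l : ℕ)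
    (h : ∀ i : ℕ, N < i → i ≤ N + l → ⌊x * (b : ℝ) ^ (i + s)⌋ % (b : ℤ) = ⌊x * (b : ℝ) ^ i⌋ % (b : ℤ)) :
    ⌊x * (b : ℝ) ^ (N + l + s)⌋ - ⌊x * (b : ℝ) ^ (N + l)⌋
      = (b : ℤ) ^ l * (⌊x * (b : ℝ) ^ (N + s)⌋ - ⌊x * (b : ℝ) ^ N⌋) := by
  induction l with
  | zero => simp
  | succ l ih =>
    have h1 := ih (fun i hi1 hi2 => h i hi1 (by omega))
    have h2 := h (N + (l + 1)) (by omega) le_rfl
    have e1 : x * (b : ℝ) ^ (N + (l + 1) + s) = x * (b : ℝ) ^ (N + l + s) * b := by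
      rw [show N + (l + 1) + s = N + l + s + 1 by ring, pow_succ]; ring
    have e2 : x * (b : ℝ) ^ (N + (l + 1)) = x * (b : ℝ) ^ (N + l) * b := by
      rw [show N + (l + 1) = N + l + 1 by ring, pow_succ]; ring
    rw [e1, e2] at h2 ⊢
    rw [floor_step_b b hb (x * (b : ℝ) ^ (N + l + s)), floor_step_b b hb (x * (b : ℝ) ^ (N + l)), h2]
    rw [pow_succ]
    linear_combination (b : ℤ) * h1

/-- A lower bound for `|q x - p|` with `q = b^N (b^s - 1)` gives a bound for `s`-periodic blocks. -/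
lemma no_run (x : ℝ) (b : ℕ) (hb : 2 ≤ b) (N s l : ℕ) (hs : 1 ≤ s) (c : ℝ) (hc : 0 ≤ c)
    (hl : c * ((N : ℝ) + s) ≤ l)
    (hm : ∀ p : ℤ, Real.exp (-(c * Real.log ((b ^ N * (b ^ s - 1) : ℕ) : ℝ)))
      ≤ |((b ^ N * (b ^ s - 1) : ℕ) : ℝ) * x - p|) :
    ∃ i : ℕ, N < i ∧ i ≤ N + l ∧
      ⌊x * (b : ℝ) ^ (i + s)⌋ % (b : ℤ) ≠ ⌊x * (b : ℝ) ^ i⌋ % (b : ℤ) := by
  by_contra hcon
  push Not at hcon
  have hrun := run_imp_b x b (by omega) N s l hcon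
  have hbR : (2 : ℝ) ≤ b := by exact_mod_cast hb
  have hb0 : (0 : ℝ) < b := by linarith
  have hbs : 1 ≤ b ^ s := Nat.one_le_pow _ _ (by omega)
  obtain ⟨q, hq⟩ : ∃ q : ℕ, q = b ^ N * (b ^ s - 1) := ⟨_, rfl⟩
  have hqR : (q : ℝ) = b ^ N * (b ^ s - 1) := by
    rw [hq]; push_cast [Nat.cast_sub hbs]; ring
  have hbs2 : (2 : ℝ) ≤ b ^ s := by
    calc (2 : ℝ) ≤ b := hbR
      _ = b ^ 1 := (pow_one _).symm
      _ ≤ b ^ s := pow_le_pow_right₀ (by linarith) hs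
  have hqpos : (0 : ℝ) < q := by
    rw [hqR]
    apply mul_pos (by positivity)
    linarith
  have hlogq : Real.log q ≤ Real.log b * (N + s) := by
    have h1 : (q : ℝ) ≤ b ^ (N + s) := by
      rw [hqR, pow_add]
      apply mul_le_mul_of_nonneg_left _ (by positivity)
      linarith
    have h2 := Real.log_le_log hqpos h1
    rw [Real.log_pow] at h2
    push_cast at h2
    linarith
  have hlb : 0 < Real.log b := Real.log_pos (by linarith)
  have key := hm (⌊x * (b : ℝ) ^ (N + s)⌋ - ⌊x * (b : ℝ) ^ N⌋)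
  rw [← hq] at key
  have hup : |(q : ℝ) * x - ((⌊x * (b : ℝ) ^ (N + s)⌋ - ⌊x * (b : ℝ) ^ N⌋ : ℤ) : ℝ)| * b ^ l < 1 := by
    have e1 : |(q : ℝ) * x - ((⌊x * (b : ℝ) ^ (N + s)⌋ - ⌊x * (b : ℝ) ^ N⌋ : ℤ) : ℝ)| * b ^ l
        = |(x * (b : ℝ) ^ (N + l + s) - ⌊x * (b : ℝ) ^ (N + l + s)⌋)
        - (x * (b : ℝ) ^ (N + l) - ⌊x * (b : ℝ) ^ (N + l)⌋)| := by
      rw [← abs_of_pos (show (0 : ℝ) < b ^ l by positivity), ← abs_mul]
      congr 1
      have h1 : ((⌊x * (b : ℝ) ^ (N + l + s)⌋ : ℤ) : ℝ) - ⌊x * (b : ℝ) ^ (N + l)⌋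
          = b ^ l * ((⌊x * (b : ℝ) ^ (N + s)⌋ : ℤ) - ⌊x * (b : ℝ) ^ N⌋) := by
        exact_mod_cast hrun
      rw [hqR]
      push_cast
      have p1 : (b : ℝ) ^ (N + l + s) = b ^ N * b ^ l * b ^ s := by rw [pow_add, pow_add]
      have p2 : (b : ℝ) ^ (N + l) = b ^ N * b ^ l := by rw [pow_add]
      linear_combination h1 - x * p1 + x * p2
    rw [e1, abs_lt]
    have a1 := Int.floor_le (x * (b : ℝ) ^ (N + l + s))
    have a2 := Int.lt_floor_add_one (x * (b : ℝ) ^ (N + l + s))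
    have a3 := Int.floor_le (x * (b : ℝ) ^ (N + l))
    have a4 := Int.lt_floor_add_one (x * (b : ℝ) ^ (N + l))
    constructor <;> linarith
  have hbl : (b : ℝ) ^ l = Real.exp (Real.log b * l) := by
    rw [mul_comm, Real.exp_nat_mul, Real.exp_log hb0]
  have hlow : 1 ≤ Real.exp (-(c * Real.log q)) * b ^ l := by
    rw [hbl, ← Real.exp_add]
    apply Real.one_le_exp
    have h1 : c * Real.log q ≤ c * (Real.log b * (N + s)) := mul_le_mul_of_nonneg_left hlogq hc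
    have h2 : Real.log b * (c * ((N : ℝ) + s)) ≤ Real.log b * l :=
      mul_le_mul_of_nonneg_left hl hlb.le
    linarith
  have : Real.exp (-(c * Real.log q)) * b ^ l
      ≤ |(q : ℝ) * x - ((⌊x * (b : ℝ) ^ (N + s)⌋ - ⌊x * (b : ℝ) ^ N⌋ : ℤ) : ℝ)| * b ^ l := by
    apply mul_le_mul_of_nonneg_right key (by positivity)
  linarith

/-- Digit form in base `b`, where `2^u 5^v` divides `b`, `b < 2^(13u)` and `b^6 < 5^(17v)`. -/
theorem runs_base (b u v : ℕ) (hb : 2 ≤ b) (hd : 2 ^ u * 5 ^ v ∣ b) (hu : b < 2 ^ (13 * u))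
    (hv : b ^ 6 < 5 ^ (17 * v)) :
    ∃ η : ℝ, 0 < η ∧ ∃ N0 : ℕ, ∀ N : ℕ, N0 ≤ N → ∀ s : ℕ, 1 ≤ s → (s : ℝ) ≤ η * N →
    ∃ i : ℕ, N < i ∧ (i : ℝ) ≤ N + 5.29 * (N + s) ∧
      ⌊Real.pi * (b : ℝ) ^ (i + s)⌋ % (b : ℤ) ≠ ⌊Real.pi * (b : ℝ) ^ i⌋ % (b : ℤ) := by
  have hbR : (2 : ℝ) ≤ b := by exact_mod_cast hb
  have hb0 : (0 : ℝ) < b := by linarith
  have hlb : 0 < Real.log b := Real.log_pos (by linarith)
  have h1 : Real.log b < 9.1222 * u := by
    have h2 : (b : ℝ) < 2 ^ (13 * u) := by exact_mod_cast hu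
    have h3 := Real.log_lt_log hb0 h2
    rw [Real.log_pow] at h3
    have h4 := Real.log_two_lt_d9
    have h5 : (0 : ℝ) ≤ u := Nat.cast_nonneg u
    push_cast at h3
    nlinarith
  have h2 : 2 * Real.log b < 9.1222 * v := by
    have h2 : (b : ℝ) ^ 6 < 5 ^ (17 * v) := by exact_mod_cast hv
    have h3 := Real.log_lt_log (by positivity) h2
    rw [Real.log_pow, Real.log_pow] at h3
    have h4 := log5_le
    have h5 : (0 : ℝ) ≤ v := Nat.cast_nonneg v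
    push_cast at h3
    have h6 : Real.log 5 * v ≤ 66 / 41 * v := mul_le_mul_of_nonneg_right h4 h5
    have h7 : (0 : ℝ) ≤ 9.1222 - 17 / 3 * (66 / 41) := by norm_num
    nlinarith [mul_nonneg h7 h5]
  obtain ⟨η, hη⟩ : ∃ η : ℝ, η = min (9.1222 * u / Real.log b) (9.1222 * v / (2 * Real.log b)) - 1 := ⟨_, rfl⟩
  have hη0 : 0 < η := by
    rw [hη, sub_pos, lt_min_iff]
    constructor
    · rw [lt_div_iff₀ hlb]; linarith
    · rw [lt_div_iff₀ (by positivity)]; linarith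
  have hη1 : (1 + η) * Real.log b ≤ 9.1222 * u := by
    have : 1 + η ≤ 9.1222 * u / Real.log b := by rw [hη]; linarith [min_le_left (9.1222 * u / Real.log b) (9.1222 * v / (2 * Real.log b))]
    rwa [le_div_iff₀ hlb] at this
  have hη2 : (1 + η) * (2 * Real.log b) ≤ 9.1222 * v := by
    have : 1 + η ≤ 9.1222 * v / (2 * Real.log b) := by rw [hη]; linarith [min_le_right (9.1222 * u / Real.log b) (9.1222 * v / (2 * Real.log b))]
    rwa [le_div_iff₀ (by positivity)] at this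
  obtain ⟨q0, hq0⟩ := eventually_atTop.mp measure
  refine ⟨η, hη0, max q0 1000, fun N hN s hs hsN => ?_⟩
  have hN1 : 1000 ≤ N := le_trans (le_max_right _ _) hN
  have hNq : q0 ≤ N := le_trans (le_max_left _ _) hN
  have hNR : (1000 : ℝ) ≤ N := by exact_mod_cast hN1
  have hsR : (1 : ℝ) ≤ s := by exact_mod_cast hs
  obtain ⟨l, hl⟩ : ∃ l, l = ⌈5.289 * ((N : ℝ) + s)⌉₊ := ⟨_, rfl⟩
  have hl1 : 5.289 * ((N : ℝ) + s) ≤ l := by rw [hl]; exact Nat.le_ceil _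
  have hl2 : (l : ℝ) < 5.289 * ((N : ℝ) + s) + 1 := by
    rw [hl]; exact Nat.ceil_lt_add_one (by positivity)
  obtain ⟨q, hq⟩ : ∃ q : ℕ, q = b ^ N * (b ^ s - 1) := ⟨_, rfl⟩
  have hbs : 1 ≤ b ^ s := Nat.one_le_pow _ _ (by omega)
  have hbs1 : 1 ≤ b ^ s - 1 := by
    have : b ^ 1 ≤ b ^ s := Nat.pow_le_pow_right (by omega) hs
    rw [pow_one] at this
    omega
  have hqN : N ≤ q := by
    have h1 : N < b ^ N := Nat.lt_pow_self (by omega)
    have h2 : b ^ N * 1 ≤ b ^ N * (b ^ s - 1) := Nat.mul_le_mul_left _ hbs1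
    rw [hq]; omega
  have hqpos : (0 : ℝ) < q := by
    have : 0 < q := by omega
    exact_mod_cast this
  have hlogq : Real.log q ≤ Real.log b * (N + s) := by
    have h1 : (q : ℝ) ≤ b ^ (N + s) := by
      rw [hq, pow_add]
      push_cast [Nat.cast_sub hbs]
      apply mul_le_mul_of_nonneg_left _ (by positivity)
      linarith
    have h2 := Real.log_le_log hqpos h1
    rw [Real.log_pow] at h2
    push_cast at h2
    linarith
  have hlogq2 : Real.log q ≤ Real.log b * ((1 + η) * N) := by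
    refine hlogq.trans (mul_le_mul_of_nonneg_left ?_ hlb.le)
    linarith
  have hdq : 2 ^ (u * N) * 5 ^ (v * N) ∣ q := by
    rw [hq, pow_mul, pow_mul, ← mul_pow]
    exact (pow_dvd_pow_of_dvd hd N).mul_right _
  have hN0 : (0 : ℝ) ≤ N := by linarith
  obtain ⟨i, hi1, hi2, hi3⟩ := no_run Real.pi b hb N s l hs 5.289 (by norm_num) hl1 (fun p => by
    have := hq0 q (by omega) (u * N) (v * N) hdq (by
      push_cast
      nlinarith [mul_le_mul_of_nonneg_right hη1 hN0]) (by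
      push_cast
      nlinarith [mul_le_mul_of_nonneg_right hη2 hN0]) p
    rw [hq] at this
    exact this)
  refine ⟨i, hi1, ?_, hi3⟩
  have : (i : ℝ) ≤ N + l := by exact_mod_cast hi2
  linarith

end Pool.Agent.H346R2.Pi
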