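import Mathlib

/-!
Algebraic identities behind the decimal-denominator irrationality measure of `π`.
-/

open Polynomial

namespace Pool.Agent.H346R2.Pi

/-- geometric series `1/(1 - tX)` -/
noncomputable def geo {R : Type*} [CommRing R] (t : R) : PowerSeries R :=
  PowerSeries.mk fun i => t ^ i

lemma geo_mul {R : Type*} [CommRing R] (t : R) :
    geo t * (1 - PowerSeries.C t * PowerSeries.X) = 1 := by
  ext i
  rw [mul_sub, mul_one, map_sub]
  cases i with
  | zero => simp [geo]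
  | succ i =>
    have : geo t * (PowerSeries.C t * PowerSeries.X) = PowerSeries.C t * (geo t * PowerSeries.X) := by
      ring
    rw [this, PowerSeries.coeff_C_mul, PowerSeries.coeff_succ_mul_X]
    simp [geo, pow_succ']

lemma geo_map {R S : Type*} [CommRing R] [CommRing S] (f : R →+* S) (t : R) :
    PowerSeries.map f (geo t) = geo (f t) := by
  ext i; simp [geo]

/-- The numerator `N(x) = (1+x)^(18n) ((1+2x+2x²)(2+2x+x²))^(6n)`. -/
noncomputable def Num (R : Type*) [CommRing R] (n : ℕ) : R[X] :=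
  (1 + X) ^ (18 * n) * ((1 + 2 * X + 2 * X ^ 2) * (2 + 2 * X + X ^ 2)) ^ (6 * n)

/-- `(1+6x+25x²)^(6n)` -/
noncomputable def Pv (R : Type*) [CommRing R] (n : ℕ) : R[X] :=
  (1 + 6 * X + 25 * X ^ 2) ^ (6 * n)

/-- `G = N(x) (1-x)^(-14n)` -/
noncomputable def G (R : Type*) [CommRing R] (n : ℕ) : PowerSeries R :=
  (Num R n : PowerSeries R) * geo (1 : R) ^ (14 * n)

/-- `H = (1+6x+25x²)^(6n) (1-25x)^(-14n-1)` -/
noncomputable def H (R : Type*) [CommRing R] (n : ℕ) : PowerSeries R :=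
  (Pv R n : PowerSeries R) * geo (25 : R) ^ (14 * n + 1)

/-- the integer coefficients of `G` -/
noncomputable def g (n j : ℕ) : ℤ := PowerSeries.coeff j (G ℤ n)

/-- the integer coefficients of `H` -/
noncomputable def h (n j : ℕ) : ℤ := PowerSeries.coeff j (H ℤ n)

lemma Num_map {R S : Type*} [CommRing R] [CommRing S] (f : R →+* S) (n : ℕ) :
    (Num R n).map f = Num S n := by
  simp [Num]

lemma Pv_map {R S : Type*} [CommRing R] [CommRing S] (f : R →+* S) (n : ℕ) :
    (Pv R n).map f = Pv S n := by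
  simp [Pv]

lemma G_map {R S : Type*} [CommRing R] [CommRing S] (f : R →+* S) (n : ℕ) :
    PowerSeries.map f (G R n) = G S n := by
  rw [G, G, map_mul, map_pow, geo_map, map_one, ← Num_map f, Polynomial.polynomial_map_coe]

lemma H_map {R S : Type*} [CommRing R] [CommRing S] (f : R →+* S) (n : ℕ) :
    PowerSeries.map f (H R n) = H S n := by
  rw [H, H, map_mul, map_pow, geo_map, map_ofNat, ← Pv_map f, Polynomial.polynomial_map_coe]

lemma coeff_G {R : Type*} [CommRing R] (n j : ℕ) :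
    PowerSeries.coeff j (G R n) = (g n j : R) := by
  rw [← G_map (Int.castRingHom R), PowerSeries.coeff_map]; rfl

lemma coeff_H {R : Type*} [CommRing R] (n j : ℕ) :
    PowerSeries.coeff j (H R n) = (h n j : R) := by
  rw [← H_map (Int.castRingHom R), PowerSeries.coeff_map]; rfl

/-- truncated `H` -/
noncomputable def qr (n : ℕ) : ℂ[X] := ∑ j ∈ Finset.range (7 * n), C (h n j : ℂ) * X ^ j

lemma qr_coeff (n j : ℕ) : (qr n).coeff j = if j < 7 * n then (h n j : ℂ) else 0 := by
  simp [qr, Polynomial.finsetSum_coeff, Polynomial.coeff_X_pow]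

lemma step1 (n : ℕ) (hn : 0 < n) : ∃ R : ℂ[X], R.natDegree ≤ 14 * n ∧
    Pv ℂ n = qr n * (1 - 25 * X) ^ (14 * n + 1) + X ^ (7 * n) * R := by
  have hH : H ℂ n * ((1 - 25 * X : ℂ[X]) : PowerSeries ℂ) ^ (14 * n + 1) = (Pv ℂ n : PowerSeries ℂ) := by
    have e : ((1 - 25 * X : ℂ[X]) : PowerSeries ℂ) = 1 - PowerSeries.C 25 * PowerSeries.X := by
      rw [Polynomial.coe_sub, Polynomial.coe_mul, Polynomial.coe_X, Polynomial.coe_one,
        show (25 : ℂ[X]) = C 25 from rfl, Polynomial.coe_C]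
    rw [H, mul_assoc, ← mul_pow, e, geo_mul, one_pow, mul_one]
  have hdvd : (X : ℂ[X]) ^ (7 * n) ∣ Pv ℂ n - qr n * (1 - 25 * X) ^ (14 * n + 1) := by
    rw [Polynomial.X_pow_dvd_iff]
    intro d hd
    rw [← Polynomial.coeff_coe, Polynomial.coe_sub, Polynomial.coe_mul, Polynomial.coe_pow, ← hH,
      ← sub_mul, PowerSeries.coeff_mul]
    apply Finset.sum_eq_zero
    intro ij hij
    have h1 : ij.1 < 7 * n := by
      have : ij.1 + ij.2 = d := by simpa using hij
      omega
    rw [map_sub, coeff_H, Polynomial.coeff_coe, qr_coeff, if_pos h1, sub_self, zero_mul]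
  obtain ⟨R, hR⟩ := hdvd
  refine ⟨R, ?_, by rw [← hR]; ring⟩
  by_cases hR0 : R = 0
  · simp [hR0]
  have hdeg : (Pv ℂ n - qr n * (1 - 25 * X) ^ (14 * n + 1)).natDegree ≤ 21 * n := by
    apply (Polynomial.natDegree_sub_le _ _).trans
    apply max_le
    · have : (1 + 6 * X + 25 * X ^ 2 : ℂ[X]).natDegree ≤ 2 := by compute_degree
      refine (Polynomial.natDegree_pow_le).trans ?_
      calc 6 * n * (1 + 6 * X + 25 * X ^ 2 : ℂ[X]).natDegree ≤ 6 * n * 2 := by gcongr
        _ ≤ 21 * n := by omega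
    · have h1 : (qr n).natDegree ≤ 7 * n - 1 := by
        rw [Polynomial.natDegree_le_iff_coeff_eq_zero]
        intro N hN
        rw [qr_coeff, if_neg (by omega)]
      have h2 : ((1 - 25 * X : ℂ[X]) ^ (14 * n + 1)).natDegree ≤ 14 * n + 1 := by
        have : (1 - 25 * X : ℂ[X]).natDegree ≤ 1 := by compute_degree
        refine (Polynomial.natDegree_pow_le).trans ?_
        calc (14 * n + 1) * (1 - 25 * X : ℂ[X]).natDegree ≤ (14 * n + 1) * 1 := by gcongr
          _ = 14 * n + 1 := by omega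
      refine (Polynomial.natDegree_mul_le).trans ?_
      omega
  rw [hR, Polynomial.natDegree_mul (by simp) hR0, Polynomial.natDegree_X_pow] at hdeg
  omega

/-- homogenised evaluation -/
lemma hom_eval (P : ℂ[X]) (d : ℕ) (hd : P.natDegree ≤ d) (u w : ℂ) (hu : u ≠ 0) :
    P.eval (w / u) * u ^ d = ∑ j ∈ Finset.range (d + 1), P.coeff j * w ^ j * u ^ (d - j) := by
  rw [Polynomial.eval_eq_sum_range' (Nat.lt_succ_of_le hd), Finset.sum_mul]
  apply Finset.sum_congr rfl
  intro j hj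
  have hj' : j ≤ d := by
    have := Finset.mem_range.mp hj; omega
  rw [div_pow]
  have : u ^ d = u ^ j * u ^ (d - j) := by rw [← pow_add]; congr 1; omega
  rw [this]
  field_simp

/-- palindromic polynomials of (formal) degree `d` -/
def Pal (d : ℕ) (f : ℂ[X]) : Prop := f.natDegree ≤ d ∧ Polynomial.reflect d f = f

lemma Pal.mul {d e : ℕ} {f k : ℂ[X]} (hf : Pal d f) (hk : Pal e k) : Pal (d + e) (f * k) := by
  refine ⟨(Polynomial.natDegree_mul_le).trans (add_le_add hf.1 hk.1), ?_⟩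
  rw [Polynomial.reflect_mul _ _ hf.1 hk.1, hf.2, hk.2]

lemma Pal.one : Pal 0 1 := by
  refine ⟨by simp, ?_⟩
  have := Polynomial.reflect_one (R := ℂ) 0
  simpa using this

lemma Pal.pow {d : ℕ} {f : ℂ[X]} (hf : Pal d f) (m : ℕ) : Pal (d * m) (f ^ m) := by
  induction m with
  | zero => simpa using Pal.one
  | succ m ih => rw [pow_succ, mul_add, mul_one]; exact ih.mul hf

lemma Pal.C_mul {d : ℕ} {f : ℂ[X]} (hf : Pal d f) (c : ℂ) : Pal d (C c * f) := by
  refine ⟨(Polynomial.natDegree_C_mul_le _ _).trans hf.1, ?_⟩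
  rw [Polynomial.reflect_C_mul, hf.2]

lemma Pal.add {d : ℕ} {f k : ℂ[X]} (hf : Pal d f) (hk : Pal d k) : Pal d (f + k) := by
  refine ⟨(Polynomial.natDegree_add_le _ _).trans (max_le hf.1 hk.1), ?_⟩
  rw [Polynomial.reflect_add, hf.2, hk.2]

lemma Pal.zero {d : ℕ} : Pal d 0 := ⟨by simp, by simp⟩

lemma Pal.sum {ι : Type*} {d : ℕ} (s : Finset ι) (f : ι → ℂ[X]) (hf : ∀ i ∈ s, Pal d (f i)) :
    Pal d (∑ i ∈ s, f i) := by
  classical
  induction s using Finset.induction_on with
  | empty => simpa using Pal.zero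
  | insert a s ha ih =>
    rw [Finset.sum_insert ha]
    exact (hf a (by simp)).add (ih fun i hi => hf i (by simp [hi]))

lemma Pal.coeff {d : ℕ} {f : ℂ[X]} (hf : Pal d f) {j : ℕ} (hj : j ≤ d) :
    f.coeff (d - j) = f.coeff j := by
  conv_rhs => rw [← hf.2]
  rw [Polynomial.coeff_reflect, Polynomial.revAt_le hj]

lemma pal_A : Pal 2 ((1 - X : ℂ[X]) ^ 2) := by
  have e : ((1 - X : ℂ[X]) ^ 2) = C 1 * X ^ 0 + C (-2) * X ^ 1 + C 1 * X ^ 2 := by
    simp only [map_one, map_neg, map_ofNat]; ring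
  rw [e]
  refine ⟨by compute_degree, ?_⟩
  rw [Polynomial.reflect_add, Polynomial.reflect_add]
  simp only [Polynomial.reflect_C_mul_X_pow]
  rw [Polynomial.revAt_le (by norm_num), Polynomial.revAt_le (by norm_num),
    Polynomial.revAt_le (by norm_num)]
  ring

lemma pal_B : Pal 2 ((1 + X : ℂ[X]) ^ 2) := by
  have e : ((1 + X : ℂ[X]) ^ 2) = C 1 * X ^ 0 + C 2 * X ^ 1 + C 1 * X ^ 2 := by
    simp only [map_one, map_ofNat]; ring
  rw [e]
  refine ⟨by compute_degree, ?_⟩
  rw [Polynomial.reflect_add, Polynomial.reflect_add]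
  simp only [Polynomial.reflect_C_mul_X_pow]
  rw [Polynomial.revAt_le (by norm_num), Polynomial.revAt_le (by norm_num),
    Polynomial.revAt_le (by norm_num)]
  ring

/-- the constant `100^(14n+1)/(25^(9n) 400^(6n))` -/
noncomputable def kap (n : ℕ) : ℂ := 100 ^ (14 * n + 1) / (25 ^ (9 * n) * 400 ^ (6 * n))

/-- the q part in the x-plane -/
noncomputable def Sq (n : ℕ) : ℂ[X] :=
  ∑ j ∈ Finset.range (7 * n), C (h n j : ℂ) * (((1 - X) ^ 2) ^ j * (25 * (1 + X) ^ 2) ^ (7 * n - 1 - j))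

lemma step2 (n : ℕ) (hn : 0 < n) : ∃ T : ℂ[X], Pal (28 * n) T ∧
    Num ℂ n = C (kap n) * Sq n * X ^ (14 * n + 1) + (1 - X) ^ (14 * n) * T := by
  obtain ⟨R, hRdeg, hR⟩ := step1 n hn
  set c0 : ℂ := 1 / (25 ^ (9 * n) * 400 ^ (6 * n)) with hc0
  refine ⟨C c0 * ∑ j ∈ Finset.range (14 * n + 1),
    C (R.coeff j) * (((1 - X) ^ 2) ^ j * (C 25 * (1 + X) ^ 2) ^ (14 * n - j)), ?_, ?_⟩
  · apply Pal.C_mul
    apply Pal.sum
    intro j hj
    apply Pal.C_mul
    have hj' : j ≤ 14 * n := by have := Finset.mem_range.mp hj; omega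
    have h1 := (pal_A.pow j).mul ((pal_B.C_mul 25).pow (14 * n - j))
    have h2 : 2 * j + 2 * (14 * n - j) = 28 * n := by omega
    rwa [h2] at h1
  · apply Polynomial.eq_of_infinite_eval_eq
    apply Set.Infinite.mono (s := {x : ℂ | x ≠ -1})
    · intro x hx
      simp only [Set.mem_ofPred_eq]
      have hx1 : (1 + x) ≠ 0 := by
        intro h0; apply hx; linear_combination h0
      obtain ⟨u, hu⟩ : ∃ u : ℂ, u = 25 * (1 + x) ^ 2 := ⟨_, rfl⟩
      obtain ⟨w, hw⟩ : ∃ w : ℂ, w = (1 - x) ^ 2 := ⟨_, rfl⟩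
      have hu0 : u ≠ 0 := by rw [hu]; exact mul_ne_zero (by norm_num) (pow_ne_zero _ hx1)
      have e1 := congrArg (fun P : ℂ[X] => P.eval (w / u)) hR
      simp only [Polynomial.eval_add, Polynomial.eval_mul, Polynomial.eval_pow, Polynomial.eval_X,
        Polynomial.eval_sub, Polynomial.eval_one, Polynomial.eval_ofNat] at e1
      have e2 : (qr n).eval (w / u) * u ^ (7 * n - 1)
          = ∑ j ∈ Finset.range (7 * n), (h n j : ℂ) * w ^ j * u ^ (7 * n - 1 - j) := by
        rw [hom_eval _ (7 * n - 1) _ u w hu0]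
        · rw [show 7 * n - 1 + 1 = 7 * n by omega]
          apply Finset.sum_congr rfl
          intro j hj
          rw [qr_coeff, if_pos (Finset.mem_range.mp hj)]
        · rw [Polynomial.natDegree_le_iff_coeff_eq_zero]
          intro N hN
          rw [qr_coeff, if_neg (by omega)]
      have e3 := hom_eval R (14 * n) hRdeg u w hu0
      have e4 : (Pv ℂ n).eval (w / u) * u ^ (12 * n) = (u ^ 2 + 6 * u * w + 25 * w ^ 2) ^ (6 * n) := by
        rw [Pv]
        simp only [Polynomial.eval_add, Polynomial.eval_mul, Polynomial.eval_pow, Polynomial.eval_X,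
          Polynomial.eval_one, Polynomial.eval_ofNat]
        rw [show 12 * n = 2 * (6 * n) by ring, pow_mul u 2 (6 * n), ← mul_pow]
        congr 1
        field_simp
      have e5 : u ^ 2 + 6 * u * w + 25 * w ^ 2
          = 400 * ((1 + 2 * x + 2 * x ^ 2) * (2 + 2 * x + x ^ 2)) := by
        rw [hu, hw]; ring
      have e6 : (1 - 25 * (w / u)) * u = 100 * x := by
        rw [sub_mul, mul_assoc, div_mul_cancel₀ _ hu0, hu, hw]; ring
      have key : u ^ (9 * n) * (u ^ 2 + 6 * u * w + 25 * w ^ 2) ^ (6 * n)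
          = (∑ j ∈ Finset.range (7 * n), (h n j : ℂ) * w ^ j * u ^ (7 * n - 1 - j))
              * (100 * x) ^ (14 * n + 1)
            + w ^ (7 * n) * ∑ j ∈ Finset.range (14 * n + 1), R.coeff j * w ^ j * u ^ (14 * n - j) := by
        rw [← e2, ← e3, ← e4, ← e6, e1]
        have p1 : u ^ (9 * n) * u ^ (12 * n) = u ^ (7 * n - 1) * u ^ (14 * n + 1) := by
          rw [← pow_add, ← pow_add]; congr 1; omega
        have p2 : u ^ (9 * n) * u ^ (12 * n) = u ^ (7 * n) * u ^ (14 * n) := by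
          rw [← pow_add, ← pow_add]; congr 1; omega
        rw [mul_pow (1 - 25 * (w / u)) u]
        have p3 : (w / u) ^ (7 * n) * u ^ (7 * n) = w ^ (7 * n) := by
          rw [← mul_pow, div_mul_cancel₀ _ hu0]
        calc u ^ (9 * n) * ((eval (w / u) (qr n) * (1 - 25 * (w / u)) ^ (14 * n + 1)
              + (w / u) ^ (7 * n) * eval (w / u) R) * u ^ (12 * n))
            = eval (w / u) (qr n) * (1 - 25 * (w / u)) ^ (14 * n + 1) * (u ^ (9 * n) * u ^ (12 * n))
              + (w / u) ^ (7 * n) * eval (w / u) R * (u ^ (9 * n) * u ^ (12 * n)) := by ring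
          _ = eval (w / u) (qr n) * (1 - 25 * (w / u)) ^ (14 * n + 1)
                * (u ^ (7 * n - 1) * u ^ (14 * n + 1))
              + (w / u) ^ (7 * n) * eval (w / u) R * (u ^ (7 * n) * u ^ (14 * n)) := by
              rw [← p2, ← p1]
          _ = _ := by rw [← p3]; ring
      rw [e5] at key
      rw [Num, Sq]
      simp only [Polynomial.eval_add, Polynomial.eval_mul, Polynomial.eval_pow, Polynomial.eval_X,
        Polynomial.eval_sub, Polynomial.eval_one, Polynomial.eval_ofNat, Polynomial.eval_C,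
        Polynomial.eval_finsetSum]
      rw [← hu, ← hw]
      have k1 : u ^ (9 * n) = 25 ^ (9 * n) * (1 + x) ^ (18 * n) := by
        rw [hu, mul_pow, ← pow_mul]; congr 2; ring
      have k2 : w ^ (7 * n) = (1 - x) ^ (14 * n) := by
        rw [hw, ← pow_mul]; congr 1; ring
      rw [k1, k2, mul_pow 400, mul_pow 100] at key
      have s1 : ∑ j ∈ Finset.range (7 * n), (h n j : ℂ) * (w ^ j * u ^ (7 * n - 1 - j))
          = ∑ j ∈ Finset.range (7 * n), (h n j : ℂ) * w ^ j * u ^ (7 * n - 1 - j) :=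
        Finset.sum_congr rfl fun j _ => by ring
      have s2 : ∑ j ∈ Finset.range (14 * n + 1), R.coeff j * (w ^ j * u ^ (14 * n - j))
          = ∑ j ∈ Finset.range (14 * n + 1), R.coeff j * w ^ j * u ^ (14 * n - j) :=
        Finset.sum_congr rfl fun j _ => by ring
      rw [s1, s2, kap, hc0]
      have hne1 : (25 ^ (9 * n) : ℂ) ≠ 0 := pow_ne_zero _ (by norm_num)
      have hne2 : (400 ^ (6 * n) : ℂ) ≠ 0 := pow_ne_zero _ (by norm_num)
      field_simp
      linear_combination key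
    · exact (Set.finite_singleton (-1 : ℂ)).infinite_compl

lemma step3 (n : ℕ) (hn : 0 < n) : ∃ T : ℂ[X], T.natDegree ≤ 28 * n ∧
    Num ℂ n = C (kap n) * Sq n * X ^ (14 * n + 1) + (1 - X) ^ (14 * n) * T ∧
    (∀ j ≤ 14 * n, T.coeff j = (g n j : ℂ)) ∧
    (∀ j ≤ 14 * n, T.coeff (28 * n - j) = (g n j : ℂ)) := by
  obtain ⟨T, hT, hN⟩ := step2 n hn
  have key : ∀ j ≤ 14 * n, T.coeff j = (g n j : ℂ) := by
    intro j hj
    have e1 : (Num ℂ n : PowerSeries ℂ) * geo (1 : ℂ) ^ (14 * n)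
        = ((C (kap n) * Sq n : ℂ[X]) : PowerSeries ℂ) * geo (1 : ℂ) ^ (14 * n)
            * PowerSeries.X ^ (14 * n + 1) + (T : PowerSeries ℂ) := by
      have e2 : ((1 - X : ℂ[X]) : PowerSeries ℂ) = 1 - PowerSeries.C 1 * PowerSeries.X := by
        simp
      have e3 : ((1 - X : ℂ[X]) : PowerSeries ℂ) ^ (14 * n) * geo (1 : ℂ) ^ (14 * n) = 1 := by
        rw [← mul_pow, e2, mul_comm, geo_mul, one_pow]
      have e4 : (Num ℂ n : PowerSeries ℂ) = ((C (kap n) * Sq n : ℂ[X]) : PowerSeries ℂ)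
          * PowerSeries.X ^ (14 * n + 1) + ((1 - X : ℂ[X]) : PowerSeries ℂ) ^ (14 * n) * (T : PowerSeries ℂ) := by
        rw [hN]
        simp only [Polynomial.coe_add, Polynomial.coe_mul, Polynomial.coe_pow, Polynomial.coe_X]
      rw [e4]
      linear_combination (T : PowerSeries ℂ) * e3
    have e5 := congrArg (PowerSeries.coeff j) e1
    rw [map_add, PowerSeries.coeff_mul_X_pow', if_neg (by omega), zero_add, Polynomial.coeff_coe] at e5
    rw [← e5, ← coeff_G, G]
  refine ⟨T, hT.1, hN, key, fun j hj => ?_⟩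
  rw [← key j hj]
  exact hT.coeff (by omega)

end Pool.Agent.H346R2.Pi
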