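import Pool.Agent.H346R2.Pi.Mn
import Pool.Agent.Helper799.PNT

/-!
Asymptotics of `log (Mn n)` from the prime number theorem.
-/

open Filter

namespace Pool.Agent.H346R2.Pi

lemma sum_Pset (n : ℕ) (uv : ℕ × ℕ) (hu : 21 ≤ uv.1) (huv : uv.1 < uv.2) :
    ∑ p ∈ Pset n uv, Real.log p
      = Chebyshev.theta ((126 * n : ℝ) / uv.1) - Chebyshev.theta ((126 * n : ℝ) / uv.2) := by
  classical
  have f1 : ⌊(126 * n : ℝ) / uv.1⌋₊ = 126 * n / uv.1 := by
    have := Nat.floor_div_eq_div (K := ℝ) (126 * n) uv.1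
    push_cast at this
    exact this
  have f2 : ⌊(126 * n : ℝ) / uv.2⌋₊ = 126 * n / uv.2 := by
    have := Nat.floor_div_eq_div (K := ℝ) (126 * n) uv.2
    push_cast at this
    exact this
  rw [Chebyshev.theta_eq_sum_Icc, Chebyshev.theta_eq_sum_Icc, f1, f2]
  have hsub : (Finset.Icc 0 (126 * n / uv.2)).filter Nat.Prime ⊆ (Finset.Icc 0 (126 * n / uv.1)).filter Nat.Prime := by
    apply Finset.filter_subset_filter
    apply Finset.Icc_subset_Icc_right
    exact Nat.div_le_div_left huv.le (by omega)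
  rw [eq_sub_iff_add_eq, add_comm, ← Finset.sum_sdiff hsub, add_comm]
  congr 1
  apply Finset.sum_congr _ (fun _ _ => rfl)
  ext p
  simp only [Pset, Finset.mem_filter, Finset.mem_range, Finset.mem_sdiff, Finset.mem_Icc, zero_le, true_and]
  have hu0 : 0 < uv.1 := by omega
  have hv0 : 0 < uv.2 := by omega
  rw [Nat.le_div_iff_mul_le hu0, Nat.le_div_iff_mul_le hv0, mul_comm p uv.1, mul_comm p uv.2]
  constructor
  · rintro ⟨h1, h2, h3, h4⟩
    exact ⟨⟨h3, h2⟩, fun h => by omega⟩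
  · rintro ⟨⟨h1, h2⟩, h3⟩
    refine ⟨?_, h2, h1, ?_⟩
    · have := Nat.mul_le_mul_right p hu
      omega
    · by_contra h
      exact h3 ⟨by omega, h2⟩

lemma log_Dn (n : ℕ) : Real.log (Dn n) = ∑ uv ∈ Lf,
    (Chebyshev.theta ((126 * n : ℝ) / uv.1) - Chebyshev.theta ((126 * n : ℝ) / uv.2)) := by
  rw [Dn, Nat.cast_prod, Real.log_prod]
  · rw [Om, Finset.sum_biUnion (Pset_disj n)]
    apply Finset.sum_congr rfl
    intro uv huv
    obtain ⟨h1, h2, -⟩ := Lf_bds uv huv
    exact sum_Pset n uv h1 h2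
  · intro p hp
    have := (good_of_mem n p hp).1.ne_zero
    exact_mod_cast this

lemma theta_lim (u : ℕ) (hu : 0 < u) :
    Tendsto (fun n : ℕ => Chebyshev.theta ((126 * n : ℝ) / u) / n) atTop (nhds (126 / u)) := by
  have hu' : (0 : ℝ) < u := by exact_mod_cast hu
  have h1 : Tendsto (fun n : ℕ => (126 * n : ℝ) / u) atTop atTop := by
    have : (fun n : ℕ => (126 * n : ℝ) / u) = fun n : ℕ => (126 / u : ℝ) * n := by
      ext n; ring
    rw [this]
    exact tendsto_natCast_atTop_atTop.const_mul_atTop (by positivity)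
  have h2 := (Pool.Agent.Helper799.PNT.theta_div_tendsto.comp h1).const_mul (126 / u : ℝ)
  rw [mul_one] at h2
  refine h2.congr' ?_
  filter_upwards [eventually_gt_atTop 0] with n hn
  have hn' : (0 : ℝ) < n := by exact_mod_cast hn
  simp only [Function.comp_apply]
  field_simp

lemma psi_lim :
    Tendsto (fun n : ℕ => Chebyshev.psi ((14 * n : ℕ) : ℝ) / n) atTop (nhds 14) := by
  have h1 : Tendsto (fun n : ℕ => ((14 * n : ℕ) : ℝ)) atTop atTop := by
    have : (fun n : ℕ => ((14 * n : ℕ) : ℝ)) = fun n : ℕ => (14 : ℝ) * n := by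
      ext n; push_cast; ring
    rw [this]
    exact tendsto_natCast_atTop_atTop.const_mul_atTop (by positivity)
  have h2 := (Pool.Agent.Helper799.PNT.psi_div_tendsto.comp h1).const_mul (14 : ℝ)
  rw [mul_one] at h2
  refine h2.congr' ?_
  filter_upwards [eventually_gt_atTop 0] with n hn
  have hn' : (0 : ℝ) < n := by exact_mod_cast hn
  simp only [Function.comp_apply]
  push_cast
  field_simp

/-- the total saving -/
noncomputable def sav : ℝ := ∑ uv ∈ Lf, ((126 : ℝ) / uv.1 - 126 / uv.2)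

lemma sav_ge : (1.683 : ℝ) ≤ sav := by
  have h : (1.683 : ℚ) ≤ ∑ uv ∈ Lf, ((126 : ℚ) / uv.1 - 126 / uv.2) := by
    decide +kernel
  have h2 : ((1.683 : ℚ) : ℝ) ≤ ((∑ uv ∈ Lf, ((126 : ℚ) / uv.1 - 126 / uv.2) : ℚ) : ℝ) := by
    exact_mod_cast h
  push_cast at h2
  rw [sav]
  convert h2 using 1

lemma log_Mn_lim : Tendsto (fun n : ℕ => Real.log (Mn n) / n) atTop (nhds (14 - sav)) := by
  have h1 : Tendsto (fun n : ℕ => ∑ uv ∈ Lf,
      (Chebyshev.theta ((126 * n : ℝ) / uv.1) / n - Chebyshev.theta ((126 * n : ℝ) / uv.2) / n)) atTop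
      (nhds sav) := by
    unfold sav
    apply tendsto_finsetSum
    intro uv huv
    obtain ⟨h1, h2, -⟩ := Lf_bds uv huv
    exact (theta_lim uv.1 (by omega)).sub (theta_lim uv.2 (by omega))
  refine (psi_lim.sub h1).congr ?_
  intro n
  have hM : (0 : ℝ) < Mn n := by exact_mod_cast Mn_pos n
  have hD : (0 : ℝ) < Dn n := by
    have : 0 < Dn n := Finset.prod_pos fun p hp => (good_of_mem n p hp).1.pos
    exact_mod_cast this
  have e : Chebyshev.psi ((14 * n : ℕ) : ℝ) = Real.log (Mn n) + Real.log (Dn n) := by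
    rw [Chebyshev.psi_eq_log_lcmUpto, ← Mn_mul]
    push_cast
    rw [Real.log_mul hM.ne' hD.ne']
  rw [e, log_Dn, add_div, Finset.sum_div]
  have : ∑ uv ∈ Lf, (Chebyshev.theta ((126 * n : ℝ) / uv.1) - Chebyshev.theta ((126 * n : ℝ) / uv.2)) / n
      = ∑ uv ∈ Lf, (Chebyshev.theta ((126 * n : ℝ) / uv.1) / n - Chebyshev.theta ((126 * n : ℝ) / uv.2) / n) :=
    Finset.sum_congr rfl fun uv _ => sub_div _ _ _
  rw [this]
  ring

lemma Mn_bounds (η : ℝ) (hη : 0 < η) : ∀ᶠ n : ℕ in atTop,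
    Real.exp ((14 - sav - η) * n) ≤ Mn n ∧ (Mn n : ℝ) ≤ Real.exp ((14 - sav + η) * n) := by
  have h := log_Mn_lim
  rw [Metric.tendsto_atTop] at h
  obtain ⟨N, hN⟩ := h η hη
  filter_upwards [eventually_ge_atTop N, eventually_gt_atTop 0] with n hn hn0
  have h1 := hN n hn
  rw [Real.dist_eq, abs_lt] at h1
  have hn' : (0 : ℝ) < n := by exact_mod_cast hn0
  have hM : (0 : ℝ) < Mn n := by exact_mod_cast Mn_pos n
  have h2 : Real.log (Mn n) = Real.log (Mn n) / n * n := by field_simp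
  constructor
  · rw [← Real.le_log_iff_exp_le hM, h2]
    apply mul_le_mul_of_nonneg_right _ hn'.le
    linarith
  · rw [← Real.log_le_iff_le_exp hM, h2]
    apply mul_le_mul_of_nonneg_right _ hn'.le
    linarith

end Pool.Agent.H346R2.Pi
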