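import Pool.Agent.H346R2.Pi.Prim
import Pool.Agent.H346R2.Pi.Seg

/-!
Sup bound of the integrand along the path `(1+i)/2 → m → 1`, `m = (20+15i)/32`.
-/

open Polynomial

namespace Pool.Agent.H346R2.Pi

/-- the corner of the path -/
noncomputable def mm : ℂ := 5 / 8 + 15 / 32 * Complex.I

/-- the base `ρ` of the exponential decay -/
noncomputable def rho : ℝ := 48700 / 10 ^ 14

lemma rho_pos : 0 < rho := by unfold rho; norm_num

lemma num_eval (n : ℕ) (z : ℂ) : (Num ℂ n).eval (-z)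
    = ((z - 1) ^ 18 * ((1 - 2 * z + 2 * z ^ 2) * (2 - 2 * z + z ^ 2)) ^ 6) ^ n := by
  rw [Num]
  simp only [Polynomial.eval_add, Polynomial.eval_mul, Polynomial.eval_pow, Polynomial.eval_X,
        Polynomial.eval_one, Polynomial.eval_ofNat]
  have e1 : (1 + -z) ^ (18 * n) = ((z - 1) ^ 18) ^ n := by
    rw [pow_mul, show (1 + -z : ℂ) = -(z - 1) by ring, Even.neg_pow ⟨9, by norm_num⟩]
  have e2 : ((1 + 2 * -z + 2 * (-z) ^ 2) * (2 + 2 * -z + (-z) ^ 2)) ^ (6 * n)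
      = (((1 - 2 * z + 2 * z ^ 2) * (2 - 2 * z + z ^ 2)) ^ 6) ^ n := by
    rw [pow_mul, show (1 + 2 * -z + 2 * (-z) ^ 2) * (2 + 2 * -z + (-z) ^ 2)
      = (1 - 2 * z + 2 * z ^ 2) * (2 - 2 * z + z ^ 2) by ring]
  rw [e1, e2, mul_pow ((z - 1) ^ 18)]

lemma norm_num_den (z : ℂ) (x y : ℝ) (hz : z = x + y * Complex.I) :
    ‖(z - 1) ^ 18 * ((1 - 2 * z + 2 * z ^ 2) * (2 - 2 * z + z ^ 2)) ^ 6‖
      = ((x - 1) ^ 2 + y ^ 2) ^ 9 *
        (4 * ((x - 1 / 2) ^ 2 + (y - 1 / 2) ^ 2) * ((x - 1 / 2) ^ 2 + (y + 1 / 2) ^ 2) *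
          (((x - 1) ^ 2 + (y - 1) ^ 2) * ((x - 1) ^ 2 + (y + 1) ^ 2))) ^ 3 ∧
    ‖(1 + z) ^ 14 * z ^ 14‖ = (((x + 1) ^ 2 + y ^ 2) * (x ^ 2 + y ^ 2)) ^ 7 := by
  have nsq : ∀ w : ℂ, ‖w‖ ^ 2 = w.re ^ 2 + w.im ^ 2 := by
    intro w
    rw [← Complex.normSq_eq_norm_sq, Complex.normSq_apply]; ring
  have h1 : ‖z - 1‖ ^ 2 = (x - 1) ^ 2 + y ^ 2 := by
    rw [nsq, hz]; simp
  have h2 : ‖z‖ ^ 2 = x ^ 2 + y ^ 2 := by
    rw [nsq, hz]; simp
  have h3 : ‖1 + z‖ ^ 2 = (x + 1) ^ 2 + y ^ 2 := by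
    rw [nsq, hz]; simp; ring
  have h4 : ‖1 - 2 * z + 2 * z ^ 2‖ ^ 2
      = 4 * ((x - 1 / 2) ^ 2 + (y - 1 / 2) ^ 2) * ((x - 1 / 2) ^ 2 + (y + 1 / 2) ^ 2) := by
    rw [nsq, hz]
    have hr : (1 - 2 * ((x : ℂ) + y * Complex.I) + 2 * ((x : ℂ) + y * Complex.I) ^ 2).re
      = 1 - 2 * x + 2 * (x ^ 2 - y ^ 2) := by
      simp [sq]
    have hi : (1 - 2 * ((x : ℂ) + y * Complex.I) + 2 * ((x : ℂ) + y * Complex.I) ^ 2).im
      = - 2 * y + 4 * x * y := by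
      simp [sq]; ring
    rw [hr, hi]; ring
  have h5 : ‖2 - 2 * z + z ^ 2‖ ^ 2
      = ((x - 1) ^ 2 + (y - 1) ^ 2) * ((x - 1) ^ 2 + (y + 1) ^ 2) := by
    rw [nsq, hz]
    have hr : (2 - 2 * ((x : ℂ) + y * Complex.I) + ((x : ℂ) + y * Complex.I) ^ 2).re
      = 2 - 2 * x + (x ^ 2 - y ^ 2) := by
      simp [sq]
    have hi : (2 - 2 * ((x : ℂ) + y * Complex.I) + ((x : ℂ) + y * Complex.I) ^ 2).im
      = - 2 * y + 2 * x * y := by
      simp [sq]; ring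
    rw [hr, hi]; ring
  constructor
  · rw [norm_mul, norm_pow, norm_pow, norm_mul]
    have : ∀ p q r : ℝ, p ^ 18 * (q * r) ^ 6 = (p ^ 2) ^ 9 * (q ^ 2 * r ^ 2) ^ 3 := by
      intro p q r; ring
    rw [this, h1, h4, h5]
  · rw [norm_mul, norm_pow, norm_pow]
    have : ∀ p q : ℝ, p ^ 14 * q ^ 14 = (p ^ 2 * q ^ 2) ^ 7 := by
      intro p q; ring
    rw [this, h2, h3]

lemma Fi_norm_le (n : ℕ) (z : ℂ) (x y : ℝ) (hz : z = x + y * Complex.I) (hx : 1 / 2 ≤ x)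
    (hb : ((x - 1) ^ 2 + y ^ 2) ^ 9 *
        (4 * ((x - 1 / 2) ^ 2 + (y - 1 / 2) ^ 2) * ((x - 1 / 2) ^ 2 + (y + 1 / 2) ^ 2) *
          (((x - 1) ^ 2 + (y - 1) ^ 2) * ((x - 1) ^ 2 + (y + 1) ^ 2))) ^ 3
      ≤ rho * (((x + 1) ^ 2 + y ^ 2) * (x ^ 2 + y ^ 2)) ^ 7) :
    ‖Fi n z‖ ≤ 2 * rho ^ n := by
  obtain ⟨h1, h2⟩ := norm_num_den z x y hz
  have hre : z.re = x := by rw [hz]; simp
  have hz2 : 1 / 2 ≤ ‖z‖ := by
    have := Complex.abs_re_le_norm z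
    rw [hre, abs_of_nonneg (by linarith)] at this
    linarith
  have hz0 : z ≠ 0 := by
    rintro rfl; simp at hz2; norm_num at hz2
  have hden : (1 + z) ^ 14 * z ^ 14 ≠ 0 := by
    apply mul_ne_zero (pow_ne_zero _ _) (pow_ne_zero _ hz0)
    intro h
    have := congrArg Complex.re h
    simp [hre] at this
    linarith
  have hdpos : 0 < ‖(1 + z) ^ 14 * z ^ 14‖ := norm_pos_iff.mpr hden
  have hd : (1 + z) ^ (14 * n) * z ^ (14 * n + 1) = ((1 + z) ^ 14 * z ^ 14) ^ n * z := by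
    rw [mul_pow, ← pow_mul, ← pow_mul, pow_succ]; ring
  rw [Fi, num_eval, hd]
  generalize (z - 1) ^ 18 * ((1 - 2 * z + 2 * z ^ 2) * (2 - 2 * z + z ^ 2)) ^ 6 = A at h1 ⊢
  generalize (1 + z) ^ 14 * z ^ 14 = B at h2 hden hdpos ⊢
  rw [norm_div, norm_mul, norm_pow, norm_pow, ← div_div, ← div_pow]
  have hq : ‖A‖ / ‖B‖ ≤ rho := by
    rw [div_le_iff₀ hdpos, h1, h2]; exact hb
  have hq2 : (‖A‖ / ‖B‖) ^ n ≤ rho ^ n :=
    pow_le_pow_left₀ (div_nonneg (norm_nonneg _) (norm_nonneg _)) hq n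
  rw [div_le_iff₀ (by linarith)]
  have h0 : 0 ≤ rho ^ n := pow_nonneg rho_pos.le n
  calc (‖A‖ / ‖B‖) ^ n ≤ rho ^ n := hq2
    _ = 2 * rho ^ n * (1 / 2) := by ring
    _ ≤ 2 * rho ^ n * ‖z‖ := by gcongr

lemma segA_bound (n : ℕ) (z : ℂ) (hz : z ∈ segment ℝ zz mm) : 0 < z.re ∧ ‖Fi n z‖ ≤ 2 * rho ^ n := by
  obtain ⟨a, b, ha, hb, hab, rfl⟩ := hz
  have hz : (a • zz + b • mm : ℂ) = (((16 * a + 20 * b) / 32 : ℝ) : ℂ)
      + (((16 * a + 15 * b) / 32 : ℝ) : ℂ) * Complex.I := by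
    rw [zz, mm]
    simp only [Complex.real_smul]
    push_cast
    ring
  have hx : 1 / 2 ≤ (16 * a + 20 * b) / 32 := by linarith
  refine ⟨?_, Fi_norm_le n _ _ _ hz hx ?_⟩
  · rw [hz]; simp; linarith
  · have key := segA a b ha hb
    have ea : a = 1 - b := by linarith
    have hone : a + b = 1 := hab
    rw [hone, one_pow, mul_one] at key
    have e1 : ((16 * a + 20 * b) / 32 - 1) ^ 2 + ((16 * a + 15 * b) / 32) ^ 2
        = (512*a^2 + 864*(a*b) + 369*b^2) / 1024 := by rw [ea]; ring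
    have e2 : ((16 * a + 20 * b) / 32 - 1 / 2) ^ 2 + ((16 * a + 15 * b) / 32 - 1 / 2) ^ 2
        = (17*b^2) / 1024 := by rw [ea]; ring
    have e3 : ((16 * a + 20 * b) / 32 - 1 / 2) ^ 2 + ((16 * a + 15 * b) / 32 + 1 / 2) ^ 2
        = (1024*a^2 + 1984*(a*b) + 977*b^2) / 1024 := by rw [ea]; ring
    have e4 : ((16 * a + 20 * b) / 32 - 1) ^ 2 + ((16 * a + 15 * b) / 32 - 1) ^ 2
        = (512*a^2 + 928*(a*b) + 433*b^2) / 1024 := by rw [ea]; ring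
    have e5 : ((16 * a + 20 * b) / 32 - 1) ^ 2 + ((16 * a + 15 * b) / 32 + 1) ^ 2
        = (2560*a^2 + 4896*(a*b) + 2353*b^2) / 1024 := by rw [ea]; ring
    have e6 : ((16 * a + 20 * b) / 32 + 1) ^ 2 + ((16 * a + 15 * b) / 32) ^ 2
        = (2560*a^2 + 5472*(a*b) + 2929*b^2) / 1024 := by rw [ea]; ring
    have e7 : ((16 * a + 20 * b) / 32) ^ 2 + ((16 * a + 15 * b) / 32) ^ 2
        = (512*a^2 + 1120*(a*b) + 625*b^2) / 1024 := by ring
    rw [e1, e2, e3, e4, e5, e6, e7, rho]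
    generalize 512*a^2 + 864*(a*b) + 369*b^2 = A1 at *
    generalize 17*b^2 = A2 at *
    generalize 1024*a^2 + 1984*(a*b) + 977*b^2 = A3 at *
    generalize 512*a^2 + 928*(a*b) + 433*b^2 = A4 at *
    generalize 2560*a^2 + 4896*(a*b) + 2353*b^2 = A5 at *
    generalize 2560*a^2 + 5472*(a*b) + 2929*b^2 = A6 at *
    generalize 512*a^2 + 1120*(a*b) + 625*b^2 = A7 at *
    have l1 : (A1 / 1024) ^ 9 * (4 * (A2 / 1024) * (A3 / 1024) * (A4 / 1024 * (A5 / 1024))) ^ 3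
        = 64 * (A1 ^ 9 * (A2 * A3 * A4 * A5) ^ 3) / 1024 ^ 21 := by
      ring
    have l2 : (A6 / 1024 * (A7 / 1024)) ^ 7 = (A6 * A7) ^ 7 / 1024 ^ 14 := by
      ring
    rw [l1, l2]
    generalize A1 ^ 9 * (A2 * A3 * A4 * A5) ^ 3 = X at *
    generalize (A6 * A7) ^ 7 = Y at *
    clear l1 l2 e1 e2 e3 e4 e5 e6 e7
    rw [div_le_iff₀ (by norm_num)]
    calc 64 * X = (64 * 10 ^ 14 * X) / 10 ^ 14 := by ring
      _ ≤ (48700 * 32 ^ 14 * Y) / 10 ^ 14 := by gcongr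
      _ = 48700 / 10 ^ 14 * (Y / 1024 ^ 14) * 1024 ^ 21 := by ring

lemma segB_bound (n : ℕ) (z : ℂ) (hz : z ∈ segment ℝ mm 1) : 0 < z.re ∧ ‖Fi n z‖ ≤ 2 * rho ^ n := by
  obtain ⟨a, b, ha, hb, hab, rfl⟩ := hz
  have hz : (a • mm + b • 1 : ℂ) = (((20 * a + 32 * b) / 32 : ℝ) : ℂ)
      + (((15 * a) / 32 : ℝ) : ℂ) * Complex.I := by
    rw [mm]
    simp only [Complex.real_smul]
    push_cast
    ring
  have hx : 1 / 2 ≤ (20 * a + 32 * b) / 32 := by linarith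
  refine ⟨?_, Fi_norm_le n _ _ _ hz hx ?_⟩
  · rw [hz]; simp; linarith
  · have key := segB a b ha hb
    have ea : a = 1 - b := by linarith
    have hone : a + b = 1 := hab
    rw [hone, one_pow, mul_one] at key
    have e1 : ((20 * a + 32 * b) / 32 - 1) ^ 2 + ((15 * a) / 32) ^ 2
        = (369*a^2) / 1024 := by rw [ea]; ring
    have e2 : ((20 * a + 32 * b) / 32 - 1 / 2) ^ 2 + ((15 * a) / 32 - 1 / 2) ^ 2
        = (17*a^2 + 160*(a*b) + 512*b^2) / 1024 := by rw [ea]; ring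
    have e3 : ((20 * a + 32 * b) / 32 - 1 / 2) ^ 2 + ((15 * a) / 32 + 1 / 2) ^ 2
        = (977*a^2 + 1120*(a*b) + 512*b^2) / 1024 := by rw [ea]; ring
    have e4 : ((20 * a + 32 * b) / 32 - 1) ^ 2 + ((15 * a) / 32 - 1) ^ 2
        = (433*a^2 + 1088*(a*b) + 1024*b^2) / 1024 := by rw [ea]; ring
    have e5 : ((20 * a + 32 * b) / 32 - 1) ^ 2 + ((15 * a) / 32 + 1) ^ 2
        = (2353*a^2 + 3008*(a*b) + 1024*b^2) / 1024 := by rw [ea]; ring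
    have e6 : ((20 * a + 32 * b) / 32 + 1) ^ 2 + ((15 * a) / 32) ^ 2
        = (2929*a^2 + 6656*(a*b) + 4096*b^2) / 1024 := by rw [ea]; ring
    have e7 : ((20 * a + 32 * b) / 32) ^ 2 + ((15 * a) / 32) ^ 2
        = (625*a^2 + 1280*(a*b) + 1024*b^2) / 1024 := by ring
    rw [e1, e2, e3, e4, e5, e6, e7, rho]
    generalize 369*a^2 = A1 at *
    generalize 17*a^2 + 160*(a*b) + 512*b^2 = A2 at *
    generalize 977*a^2 + 1120*(a*b) + 512*b^2 = A3 at *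
    generalize 433*a^2 + 1088*(a*b) + 1024*b^2 = A4 at *
    generalize 2353*a^2 + 3008*(a*b) + 1024*b^2 = A5 at *
    generalize 2929*a^2 + 6656*(a*b) + 4096*b^2 = A6 at *
    generalize 625*a^2 + 1280*(a*b) + 1024*b^2 = A7 at *
    have l1 : (A1 / 1024) ^ 9 * (4 * (A2 / 1024) * (A3 / 1024) * (A4 / 1024 * (A5 / 1024))) ^ 3
        = 64 * (A1 ^ 9 * (A2 * A3 * A4 * A5) ^ 3) / 1024 ^ 21 := by
      ring
    have l2 : (A6 / 1024 * (A7 / 1024)) ^ 7 = (A6 * A7) ^ 7 / 1024 ^ 14 := by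
      ring
    rw [l1, l2]
    generalize A1 ^ 9 * (A2 * A3 * A4 * A5) ^ 3 = X at *
    generalize (A6 * A7) ^ 7 = Y at *
    clear l1 l2 e1 e2 e3 e4 e5 e6 e7
    rw [div_le_iff₀ (by norm_num)]
    calc 64 * X = (64 * 10 ^ 14 * X) / 10 ^ 14 := by ring
      _ ≤ (48700 * 32 ^ 14 * Y) / 10 ^ 14 := by gcongr
      _ = 48700 / 10 ^ 14 * (Y / 1024 ^ 14) * 1024 ^ 21 := by ring

lemma prim_bound (n : ℕ) (hn : 0 < n) : ‖Prim n zz‖ ≤ 4 * rho ^ n := by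
  have hr : 0 ≤ 2 * rho ^ n := mul_nonneg (by norm_num) (pow_nonneg rho_pos.le n)
  have h1 : ‖Prim n mm - Prim n zz‖ ≤ 2 * rho ^ n * ‖mm - zz‖ := by
    apply Convex.norm_image_sub_le_of_norm_hasDerivWithin_le (f' := Fi n) (s := segment ℝ zz mm)
    · intro x hx
      exact (prim_hasDeriv n hn x (segA_bound n x hx).1).hasDerivWithinAt
    · intro x hx
      exact (segA_bound n x hx).2
    · exact convex_segment _ _
    · exact left_mem_segment _ _ _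
    · exact right_mem_segment _ _ _
  have h2 : ‖Prim n 1 - Prim n mm‖ ≤ 2 * rho ^ n * ‖1 - mm‖ := by
    apply Convex.norm_image_sub_le_of_norm_hasDerivWithin_le (f' := Fi n) (s := segment ℝ mm 1)
    · intro x hx
      exact (prim_hasDeriv n hn x (segB_bound n x hx).1).hasDerivWithinAt
    · intro x hx
      exact (segB_bound n x hx).2
    · exact convex_segment _ _
    · exact left_mem_segment _ _ _
    · exact right_mem_segment _ _ _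
  have d1 : ‖mm - zz‖ ≤ 1 := by
    have : mm - zz = ((1 / 8 : ℝ) : ℂ) + ((-1 / 32 : ℝ) : ℂ) * Complex.I := by
      rw [mm, zz]; push_cast; ring
    rw [this]
    refine (norm_add_le _ _).trans ?_
    rw [norm_mul, Complex.norm_real, Complex.norm_real, Complex.norm_I]
    norm_num
  have d2 : ‖1 - mm‖ ≤ 1 := by
    have : 1 - mm = ((3 / 8 : ℝ) : ℂ) + ((-15 / 32 : ℝ) : ℂ) * Complex.I := by
      rw [mm]; push_cast; ring
    rw [this]
    refine (norm_add_le _ _).trans ?_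
    rw [norm_mul, Complex.norm_real, Complex.norm_real, Complex.norm_I]
    norm_num
  have e : Prim n zz = Prim n 1 - (Prim n 1 - Prim n mm) - (Prim n mm - Prim n zz) := by ring
  rw [prim_one] at e
  rw [e, prim_one] at *
  calc ‖0 - (0 - Prim n mm) - (Prim n mm - Prim n zz)‖ 
      ≤ ‖0 - Prim n mm‖ + ‖Prim n mm - Prim n zz‖ := by
        rw [zero_sub (0 - Prim n mm)]
        refine (norm_sub_le _ _).trans ?_
        rw [norm_neg]
    _ ≤ 2 * rho ^ n * 1 + 2 * rho ^ n * 1 := by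
        apply add_le_add
        · exact h2.trans (mul_le_mul_of_nonneg_left d2 hr)
        · exact h1.trans (mul_le_mul_of_nonneg_left d1 hr)
    _ = 4 * rho ^ n := by ring

end Pool.Agent.H346R2.Pi
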