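import Pool.Agent.H346R2.Pi.Main

/-!
Final forms: Diophantine form and digit form.
-/

open Filter

namespace Pool.Agent.H346R2.Pi

lemma log5_le : Real.log 5 ≤ 66 / 41 := by
  have h1 : (5 : ℝ) ^ 41 ≤ Real.exp ((66 : ℕ) : ℝ) := by
    refine le_trans ?_ (exp_one_pow_gt 66)
    norm_num
  have h2 := Real.log_le_log (by positivity) h1
  rw [Real.log_pow, Real.log_exp] at h2
  push_cast at h2
  linarith

lemma log10_le : Real.log 10 ≤ 2.303 := by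
  have h1 : Real.log 10 = Real.log 2 + Real.log 5 := by
    rw [← Real.log_mul (by norm_num) (by norm_num)]; norm_num
  have h2 := Real.log_two_lt_d9
  have h3 := log5_le
  rw [h1]
  have : (66 / 41 : ℝ) ≤ 1.6098 := by norm_num
  linarith

/-- Diophantine form. -/
theorem dio : ∃ q0 : ℕ, ∀ q : ℕ, q0 ≤ q → ∀ α β : ℕ, 2 ^ α * 5 ^ β ∣ q →
    q ≤ 2 ^ (13 * α) → q ^ 6 ≤ 5 ^ (17 * β) →
    ∀ p : ℤ, (q : ℝ) ^ (-(6.29 : ℝ)) ≤ |Real.pi - p / q| := by
  have h := measure.and (eventually_ge_atTop 1)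
  obtain ⟨q0, hq0⟩ := eventually_atTop.mp h
  refine ⟨q0, fun q hq α β hd hα hβ p => ?_⟩
  obtain ⟨hm, hq1⟩ := hq0 q hq
  have hqpos : (0 : ℝ) < q := by exact_mod_cast hq1
  have hq1R : (1 : ℝ) ≤ q := by exact_mod_cast hq1
  have hL : 0 ≤ Real.log q := Real.log_nonneg hq1R
  have h1 : Real.log q ≤ 9.1222 * α := by
    have h2 : (q : ℝ) ≤ 2 ^ (13 * α) := by exact_mod_cast hα
    have h3 := Real.log_le_log hqpos h2
    rw [Real.log_pow] at h3
    have h4 := Real.log_two_lt_d9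
    have h5 : (0 : ℝ) ≤ α := Nat.cast_nonneg α
    push_cast at h3
    nlinarith
  have h2 : 2 * Real.log q ≤ 9.1222 * β := by
    have h2 : (q : ℝ) ^ 6 ≤ 5 ^ (17 * β) := by exact_mod_cast hβ
    have h3 := Real.log_le_log (by positivity) h2
    rw [Real.log_pow, Real.log_pow] at h3
    have h4 := log5_le
    have h5 : (0 : ℝ) ≤ β := Nat.cast_nonneg β
    push_cast at h3
    have h6 : Real.log 5 * β ≤ 66 / 41 * β := mul_le_mul_of_nonneg_right h4 h5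
    have h7 : (0 : ℝ) ≤ 9.1222 - 17 / 3 * (66 / 41) := by norm_num
    nlinarith [mul_nonneg h7 h5]
  have h3 := hm α β hd h1 h2 p
  have h4 : |Real.pi - p / q| = |q * Real.pi - p| / q := by
    rw [← abs_of_pos hqpos, ← abs_div, abs_of_pos hqpos]
    congr 1
    field_simp
  rw [h4, le_div_iff₀ hqpos]
  refine le_trans ?_ h3
  have h5 : (q : ℝ) ^ (-(6.29 : ℝ)) * q = Real.exp (-(5.29 * Real.log q)) := by
    conv_lhs => rw [← Real.rpow_one (q : ℝ), ← Real.rpow_mul hqpos.le, ← Real.rpow_add hqpos]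
    rw [Real.rpow_def_of_pos hqpos]
    congr 1; ring
  rw [h5]
  apply Real.exp_le_exp.mpr
  nlinarith

lemma floor_step (z : ℝ) : ⌊z * 10⌋ = 10 * ⌊z⌋ + ⌊z * 10⌋ % 10 := by
  have h1 : ⌊z * 10⌋ / 10 = ⌊z⌋ := by
    have := Int.floor_div_natCast (z * 10) 10
    push_cast at this
    rw [← this]
    congr 1
    field_simp
  rw [← h1]
  exact (Int.mul_ediv_add_emod _ _).symm

lemma run_imp (N s l : ℕ)
    (h : ∀ i : ℕ, N < i → i ≤ N + l → ⌊Real.pi * (10 : ℝ) ^ (i + s)⌋ % 10 = ⌊Real.pi * (10 : ℝ) ^ i⌋ % 10) :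
    ⌊Real.pi * (10 : ℝ) ^ (N + l + s)⌋ - ⌊Real.pi * (10 : ℝ) ^ (N + l)⌋
      = 10 ^ l * (⌊Real.pi * (10 : ℝ) ^ (N + s)⌋ - ⌊Real.pi * (10 : ℝ) ^ N⌋) := by
  induction l with
  | zero => simp
  | succ l ih =>
    have h1 := ih (fun i hi1 hi2 => h i hi1 (by omega))
    have h2 := h (N + (l + 1)) (by omega) le_rfl
    have e1 : Real.pi * (10 : ℝ) ^ (N + (l + 1) + s) = Real.pi * (10 : ℝ) ^ (N + l + s) * 10 := by
      rw [show N + (l + 1) + s = N + l + s + 1 by ring, pow_succ]; ring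
    have e2 : Real.pi * (10 : ℝ) ^ (N + (l + 1)) = Real.pi * (10 : ℝ) ^ (N + l) * 10 := by
      rw [show N + (l + 1) = N + l + 1 by ring, pow_succ]; ring
    rw [e1, e2] at h2 ⊢
    rw [floor_step (Real.pi * (10 : ℝ) ^ (N + l + s)), floor_step (Real.pi * (10 : ℝ) ^ (N + l)), h2]
    rw [pow_succ]
    linear_combination 10 * h1

/-- Digit form: no long periodic blocks. -/
theorem runs : ∃ N0 : ℕ, ∀ N : ℕ, N0 ≤ N → ∀ s : ℕ, 1 ≤ s → (s : ℝ) ≤ 0.98 * N →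
    ∃ i : ℕ, N < i ∧ (i : ℝ) ≤ N + 5.29 * (N + s) ∧
      ⌊Real.pi * (10 : ℝ) ^ (i + s)⌋ % 10 ≠ ⌊Real.pi * (10 : ℝ) ^ i⌋ % 10 := by
  obtain ⟨q0, hq0⟩ := eventually_atTop.mp measure
  refine ⟨max q0 1000, fun N hN s hs hsN => ?_⟩
  by_contra hcon
  push Not at hcon
  have hN1 : 1000 ≤ N := le_trans (le_max_right _ _) hN
  have hNq : q0 ≤ N := le_trans (le_max_left _ _) hN
  have hNR : (1000 : ℝ) ≤ N := by exact_mod_cast hN1
  have hsR : (1 : ℝ) ≤ s := by exact_mod_cast hs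
  obtain ⟨l, hl⟩ : ∃ l, l = ⌈5.289 * ((N : ℝ) + s)⌉₊ := ⟨_, rfl⟩
  have hl1 : 5.289 * ((N : ℝ) + s) ≤ l := by rw [hl]; exact Nat.le_ceil _
  have hl2 : (l : ℝ) < 5.289 * ((N : ℝ) + s) + 1 := by
    rw [hl]; exact Nat.ceil_lt_add_one (by positivity)
  have hrun := run_imp N s l (fun i hi1 hi2 => by
    apply hcon i hi1
    have : (i : ℝ) ≤ N + l := by exact_mod_cast hi2
    linarith)
  -- the denominators
  obtain ⟨q, hq⟩ : ∃ q : ℕ, q = 10 ^ N * (10 ^ s - 1) := ⟨_, rfl⟩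
  have h10s : 1 ≤ 10 ^ s := Nat.one_le_pow _ _ (by norm_num)
  have h9 : 9 ≤ 10 ^ s - 1 := by
    have : 10 ^ 1 ≤ 10 ^ s := Nat.pow_le_pow_right (by norm_num) hs
    omega
  have hqR : (q : ℝ) = 10 ^ N * (10 ^ s - 1) := by
    rw [hq]; push_cast [Nat.cast_sub h10s]; ring
  have hqN : N ≤ q := by
    have h1 : N < 10 ^ N := Nat.lt_pow_self (by norm_num)
    have h2 : 10 ^ N * 1 ≤ 10 ^ N * (10 ^ s - 1) := Nat.mul_le_mul_left _ (by omega)
    rw [hq]; omega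
  have hqpos : (0 : ℝ) < q := by
    have : 0 < q := by omega
    exact_mod_cast this
  have hlogq : Real.log q ≤ Real.log 10 * (N + s) := by
    have h1 : (q : ℝ) ≤ 10 ^ (N + s) := by
      rw [hqR, pow_add]
      apply mul_le_mul_of_nonneg_left _ (by positivity)
      linarith
    have h2 := Real.log_le_log hqpos h1
    rw [Real.log_pow] at h2
    push_cast at h2
    linarith
  have hl10 := log10_le
  have hl10pos : 0 < Real.log 10 := Real.log_pos (by norm_num)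
  have hb : Real.log 10 * (N + s) ≤ 2.303 * (1.98 * N) := by
    apply mul_le_mul hl10 _ (by positivity) (by norm_num)
    linarith
  have hd : 2 ^ N * 5 ^ N ∣ q := by
    rw [hq, ← mul_pow]
    exact dvd_mul_right _ _
  have key := hq0 q (by omega) N N hd (by linarith) (by linarith)
    (⌊Real.pi * (10 : ℝ) ^ (N + s)⌋ - ⌊Real.pi * (10 : ℝ) ^ N⌋)
  -- upper bound
  have hup : |(q : ℝ) * Real.pi - ((⌊Real.pi * (10 : ℝ) ^ (N + s)⌋ - ⌊Real.pi * (10 : ℝ) ^ N⌋ : ℤ) : ℝ)|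
      * 10 ^ l < 1 := by
    have e1 : |(q : ℝ) * Real.pi - ((⌊Real.pi * (10 : ℝ) ^ (N + s)⌋ - ⌊Real.pi * (10 : ℝ) ^ N⌋ : ℤ) : ℝ)|
      * 10 ^ l = |(Real.pi * (10 : ℝ) ^ (N + l + s) - ⌊Real.pi * (10 : ℝ) ^ (N + l + s)⌋)
        - (Real.pi * (10 : ℝ) ^ (N + l) - ⌊Real.pi * (10 : ℝ) ^ (N + l)⌋)| := by
      rw [← abs_of_pos (show (0 : ℝ) < 10 ^ l by positivity), ← abs_mul]
      congr 1
      have h1 : ((⌊Real.pi * (10 : ℝ) ^ (N + l + s)⌋ : ℤ) : ℝ) - ⌊Real.pi * (10 : ℝ) ^ (N + l)⌋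
          = 10 ^ l * ((⌊Real.pi * (10 : ℝ) ^ (N + s)⌋ : ℤ) - ⌊Real.pi * (10 : ℝ) ^ N⌋) := by
        exact_mod_cast hrun
      rw [hqR]
      push_cast
      have p1 : (10 : ℝ) ^ (N + l + s) = 10 ^ N * 10 ^ l * 10 ^ s := by rw [pow_add, pow_add]
      have p2 : (10 : ℝ) ^ (N + l) = 10 ^ N * 10 ^ l := by rw [pow_add]
      linear_combination h1 - Real.pi * p1 + Real.pi * p2
    rw [e1, abs_lt]
    have a1 := Int.floor_le (Real.pi * (10 : ℝ) ^ (N + l + s))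
    have a2 := Int.lt_floor_add_one (Real.pi * (10 : ℝ) ^ (N + l + s))
    have a3 := Int.floor_le (Real.pi * (10 : ℝ) ^ (N + l))
    have a4 := Int.lt_floor_add_one (Real.pi * (10 : ℝ) ^ (N + l))
    constructor <;> linarith
  have h10l : (10 : ℝ) ^ l = Real.exp (Real.log 10 * l) := by
    rw [mul_comm, Real.exp_nat_mul, Real.exp_log (by norm_num)]
  have hlow : 1 ≤ Real.exp (-(5.289 * Real.log q)) * 10 ^ l := by
    rw [h10l, ← Real.exp_add]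
    apply Real.one_le_exp
    have h1 : 5.289 * Real.log q ≤ 5.289 * (Real.log 10 * (N + s)) := by linarith
    have h2 : Real.log 10 * (5.289 * ((N : ℝ) + s)) ≤ Real.log 10 * l :=
      mul_le_mul_of_nonneg_left hl1 hl10pos.le
    linarith
  have : Real.exp (-(5.289 * Real.log q)) * 10 ^ l
      ≤ |(q : ℝ) * Real.pi - ((⌊Real.pi * (10 : ℝ) ^ (N + s)⌋ - ⌊Real.pi * (10 : ℝ) ^ N⌋ : ℤ) : ℝ)|
      * 10 ^ l := by
    apply mul_le_mul_of_nonneg_right key (by positivity)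
  linarith

end Pool.Agent.H346R2.Pi
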