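import Pool.Agent.H346R2.Pi.Alg

/-!
The integrand and its explicit primitive.
-/

open Polynomial

namespace Pool.Agent.H346R2.Pi

/-- the variable `s = 5(z-1)/(z+1)` -/
noncomputable def sv (z : ℂ) : ℂ := 5 * (z - 1) / (z + 1)

/-- the integrand -/
noncomputable def Fi (n : ℕ) (z : ℂ) : ℂ :=
  (Num ℂ n).eval (-z) / ((1 + z) ^ (14 * n) * z ^ (14 * n + 1))

/-- the primitive -/
noncomputable def Prim (n : ℕ) (z : ℂ) : ℂ :=
  (g n (14 * n) : ℂ) * Complex.log z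
  + ∑ j ∈ Finset.range (14 * n), (g n j : ℂ) * (-1) ^ j *
      ((z ^ (14 * n - j) - (z⁻¹) ^ (14 * n - j)) / ((14 * n - j : ℕ) : ℂ))
  - kap n / 10 * ∑ j ∈ Finset.range (7 * n), (h n j : ℂ) *
      (sv z ^ (2 * (7 * n - 1 - j) + 1) / ((2 * (7 * n - 1 - j) + 1 : ℕ) : ℂ))

lemma sv_deriv (z : ℂ) (hz : z + 1 ≠ 0) : HasDerivAt sv (10 / (z + 1) ^ 2) z := by
  have h1 : HasDerivAt (fun z : ℂ => 5 * (z - 1)) 5 z := by
    simpa using ((hasDerivAt_id z).sub_const 1).const_mul 5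
  have h2 : HasDerivAt (fun z : ℂ => z + 1) 1 z := (hasDerivAt_id z).add_const 1
  have h3 := h1.div h2 hz
  refine (h3.congr_deriv ?_)
  field_simp
  ring

lemma prim_deriv (n : ℕ) (z : ℂ) (hz : z ∈ Complex.slitPlane) (hz0 : z ≠ 0) (hz1 : z + 1 ≠ 0) :
    HasDerivAt (Prim n) ((g n (14 * n) : ℂ) * z⁻¹
      + ∑ j ∈ Finset.range (14 * n), (g n j : ℂ) * (-1) ^ j *
        (z ^ (14 * n - j - 1) + (z⁻¹) ^ (14 * n - j + 1))
      - kap n / 10 * ∑ j ∈ Finset.range (7 * n), (h n j : ℂ) *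
        (sv z ^ (2 * (7 * n - 1 - j)) * (10 / (z + 1) ^ 2))) z := by
  unfold Prim
  apply HasDerivAt.sub
  · apply HasDerivAt.add
    · exact (Complex.hasDerivAt_log hz).const_mul _
    · apply HasDerivAt.fun_sum
      intro j hj
      have hj' : j < 14 * n := Finset.mem_range.mp hj
      apply HasDerivAt.const_mul
      obtain ⟨k, hk⟩ : ∃ k, 14 * n - j = k + 1 := ⟨14 * n - j - 1, by omega⟩
      rw [hk, Nat.add_sub_cancel]
      have h1 : HasDerivAt (fun z : ℂ => z ^ (k + 1)) (((k + 1 : ℕ) : ℂ) * z ^ k) z := by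
        simpa using hasDerivAt_pow (k + 1) z
      have h2 : HasDerivAt (fun z : ℂ => (z⁻¹) ^ (k + 1))
          (((k + 1 : ℕ) : ℂ) * (z⁻¹) ^ k * (-(z ^ 2)⁻¹)) z := by
        have h4 := (hasDerivAt_inv hz0).pow (k + 1)
        rw [Nat.add_sub_cancel] at h4
        exact h4
      have h3 := (h1.sub h2).div_const ((k + 1 : ℕ) : ℂ)
      refine h3.congr_deriv ?_
      have hk0 : ((k + 1 : ℕ) : ℂ) ≠ 0 := by exact_mod_cast Nat.succ_ne_zero k
      have hzz : (z⁻¹) ^ (k + 1 + 1) = (z⁻¹) ^ k * (z ^ 2)⁻¹ := by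
        rw [pow_succ, pow_succ, mul_assoc, sq, mul_inv]
      rw [hzz, div_eq_iff hk0]
      ring
  · apply HasDerivAt.const_mul
    apply HasDerivAt.fun_sum
    intro j hj
    apply HasDerivAt.const_mul
    obtain ⟨k, hk⟩ : ∃ k, 2 * (7 * n - 1 - j) = k := ⟨_, rfl⟩
    rw [hk]
    have h1 := ((sv_deriv z hz1).pow (k + 1)).div_const ((k + 1 : ℕ) : ℂ)
    refine h1.congr_deriv ?_
    have hk0 : ((k + 1 : ℕ) : ℂ) ≠ 0 := by exact_mod_cast Nat.succ_ne_zero k
    rw [Nat.add_sub_cancel]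
    field_simp

lemma Fi_eq (n : ℕ) (hn : 0 < n) (z : ℂ) (hz0 : z ≠ 0) (hz1 : z + 1 ≠ 0) :
    Fi n z = (g n (14 * n) : ℂ) * z⁻¹
      + ∑ j ∈ Finset.range (14 * n), (g n j : ℂ) * (-1) ^ j *
        (z ^ (14 * n - j - 1) + (z⁻¹) ^ (14 * n - j + 1))
      - kap n / 10 * ∑ j ∈ Finset.range (7 * n), (h n j : ℂ) *
        (sv z ^ (2 * (7 * n - 1 - j)) * (10 / (z + 1) ^ 2)) := by
  obtain ⟨T, hTd, hN, hT1, hT2⟩ := step3 n hn
  have hz1' : 1 + z ≠ 0 := by rwa [add_comm]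
  have e1 : (Num ℂ n).eval (-z) = kap n * (Sq n).eval (-z) * (-z) ^ (14 * n + 1)
      + (1 + z) ^ (14 * n) * T.eval (-z) := by
    rw [hN]
    simp only [Polynomial.eval_add, Polynomial.eval_mul, Polynomial.eval_pow, Polynomial.eval_X,
        Polynomial.eval_sub, Polynomial.eval_one, Polynomial.eval_C, sub_neg_eq_add]
  have e2 : T.eval (-z) = (∑ j ∈ Finset.range (14 * n), (g n j : ℂ) * (-z) ^ j)
      + (g n (14 * n) : ℂ) * (-z) ^ (14 * n)
      + ∑ j ∈ Finset.range (14 * n), (g n j : ℂ) * (-z) ^ (28 * n - j) := by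
    rw [Polynomial.eval_eq_sum_range' (Nat.lt_succ_of_le hTd),
      show (28 * n).succ = 14 * n + 1 + 14 * n by omega, Finset.sum_range_add, Finset.sum_range_succ]
    congr 1
    · congr 1
      · apply Finset.sum_congr rfl
        intro j hj
        rw [hT1 j (Finset.mem_range.mp hj).le]
      · rw [hT1 _ le_rfl]
    · rw [← Finset.sum_range_reflect]
      apply Finset.sum_congr rfl
      intro j hj
      have hj' : j < 14 * n := Finset.mem_range.mp hj
      rw [show 14 * n + 1 + (14 * n - 1 - j) = 28 * n - j by omega, hT2 j hj'.le]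
  have e3 : (Sq n).eval (-z) = (1 + z) ^ (14 * n) * ((1 / (z + 1) ^ 2) *
      ∑ j ∈ Finset.range (7 * n), (h n j : ℂ) * sv z ^ (2 * (7 * n - 1 - j))) := by
    rw [Sq, Polynomial.eval_finsetSum, Finset.mul_sum, Finset.mul_sum]
    apply Finset.sum_congr rfl
    intro j hj
    have hj' : j < 7 * n := Finset.mem_range.mp hj
    simp only [Polynomial.eval_add, Polynomial.eval_mul, Polynomial.eval_pow, Polynomial.eval_X,
        Polynomial.eval_sub, Polynomial.eval_one, Polynomial.eval_C, sub_neg_eq_add,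
        Polynomial.eval_ofNat]
    obtain ⟨m, hm⟩ : ∃ m, 7 * n - 1 - j = m := ⟨_, rfl⟩
    have hn' : 14 * n = 2 + 2 * j + 2 * m := by omega
    rw [hm, hn', pow_add, pow_add, pow_mul (1 + z) 2 j, pow_mul (1 + z) 2 m, pow_mul (sv z), sv,
      div_pow, div_pow]
    have : (1 + -z) ^ 2 = (z - 1) ^ 2 := by ring
    rw [this, add_comm z 1]
    field_simp
    rw [show ((z - 1) ^ 2 * 5 ^ 2 : ℂ) = 25 * (z - 1) ^ 2 by ring]
  rw [Fi, e1, e2, e3]
  have e4 : (-z) ^ (14 * n + 1) = - z ^ (14 * n + 1) := by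
    rw [Odd.neg_pow]; exact ⟨7 * n, by ring⟩
  have e5 : (-z) ^ (14 * n) = z ^ (14 * n) := by
    rw [Even.neg_pow]; exact ⟨7 * n, by ring⟩
  rw [e4, e5]
  have hzp : z ^ (14 * n + 1) ≠ 0 := pow_ne_zero _ hz0
  have hzq : (1 + z) ^ (14 * n) ≠ 0 := pow_ne_zero _ hz1'
  rw [add_div, mul_div_mul_left _ _ hzq, add_div, add_div]
  have f1 : (g n (14 * n) : ℂ) * z ^ (14 * n) / z ^ (14 * n + 1) = (g n (14 * n) : ℂ) * z⁻¹ := by
    rw [pow_succ]; field_simp
  have f2 : (∑ j ∈ Finset.range (14 * n), (g n j : ℂ) * (-z) ^ j) / z ^ (14 * n + 1)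
      = ∑ j ∈ Finset.range (14 * n), (g n j : ℂ) * (-1) ^ j * (z⁻¹) ^ (14 * n - j + 1) := by
    rw [Finset.sum_div]
    apply Finset.sum_congr rfl
    intro j hj
    have hj' : j < 14 * n := Finset.mem_range.mp hj
    rw [neg_pow, show 14 * n + 1 = j + (14 * n - j + 1) by omega, pow_add, inv_pow]
    field_simp
  have f3 : (∑ j ∈ Finset.range (14 * n), (g n j : ℂ) * (-z) ^ (28 * n - j)) / z ^ (14 * n + 1)
      = ∑ j ∈ Finset.range (14 * n), (g n j : ℂ) * (-1) ^ j * z ^ (14 * n - j - 1) := by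
    rw [Finset.sum_div]
    apply Finset.sum_congr rfl
    intro j hj
    have hj' : j < 14 * n := Finset.mem_range.mp hj
    rw [neg_pow, show 28 * n - j = (14 * n + 1) + (14 * n - j - 1) by omega, pow_add z]
    have : (-1 : ℂ) ^ (14 * n + 1 + (14 * n - j - 1)) = (-1) ^ j := by
      rw [show 14 * n + 1 + (14 * n - j - 1) = 2 * (14 * n - j) + j by omega, pow_add, pow_mul]
      simp
    rw [this]
    field_simp
  rw [f1, f2, f3]
  have f4 : kap n * ((1 + z) ^ (14 * n) * (1 / (z + 1) ^ 2 *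
      ∑ j ∈ Finset.range (7 * n), (h n j : ℂ) * sv z ^ (2 * (7 * n - 1 - j)))) * -z ^ (14 * n + 1)
      / ((1 + z) ^ (14 * n) * z ^ (14 * n + 1))
      = - (kap n / 10 * ∑ j ∈ Finset.range (7 * n), (h n j : ℂ) *
        (sv z ^ (2 * (7 * n - 1 - j)) * (10 / (z + 1) ^ 2))) := by
    have : ∑ j ∈ Finset.range (7 * n), (h n j : ℂ) *
        (sv z ^ (2 * (7 * n - 1 - j)) * (10 / (z + 1) ^ 2))
        = (∑ j ∈ Finset.range (7 * n), (h n j : ℂ) * sv z ^ (2 * (7 * n - 1 - j))) * (10 / (z + 1) ^ 2) := by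
      rw [Finset.sum_mul]
      apply Finset.sum_congr rfl
      intro j _
      ring
    rw [this]
    field_simp
  rw [f4]
  have f5 : ∑ j ∈ Finset.range (14 * n), (g n j : ℂ) * (-1) ^ j *
        (z ^ (14 * n - j - 1) + (z⁻¹) ^ (14 * n - j + 1))
      = (∑ j ∈ Finset.range (14 * n), (g n j : ℂ) * (-1) ^ j * z ^ (14 * n - j - 1))
        + ∑ j ∈ Finset.range (14 * n), (g n j : ℂ) * (-1) ^ j * (z⁻¹) ^ (14 * n - j + 1) := by
    rw [← Finset.sum_add_distrib]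
    apply Finset.sum_congr rfl
    intro j _
    ring
  rw [f5]
  ring

lemma prim_hasDeriv (n : ℕ) (hn : 0 < n) (z : ℂ) (hz : 0 < z.re) :
    HasDerivAt (Prim n) (Fi n z) z := by
  have h1 : z ∈ Complex.slitPlane := Or.inl hz
  have h0 : z ≠ 0 := by rintro rfl; simp at hz
  have h2 : z + 1 ≠ 0 := by
    intro h
    have := congrArg Complex.re h
    simp at this
    linarith
  rw [Fi_eq n hn z h0 h2]
  exact prim_deriv n z h1 h0 h2

lemma prim_one (n : ℕ) : Prim n 1 = 0 := by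
  unfold Prim sv
  simp

/-- the endpoint `(1+i)/2` -/
noncomputable def zz : ℂ := (1 + Complex.I) / 2

lemma zz_inv : zz⁻¹ = 1 - Complex.I := by
  rw [zz]
  have h : (1 + Complex.I) / 2 * (1 - Complex.I) = 1 := by
    ring_nf; rw [Complex.I_sq]; ring
  exact inv_eq_of_mul_eq_one_right h

lemma sv_zz : sv zz = -1 + 2 * Complex.I := by
  rw [sv, zz]
  have h : (1 + Complex.I) / 2 + 1 ≠ 0 := by
    intro h
    have := congrArg Complex.re h
    simp at this
    norm_num at this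
  rw [div_eq_iff h]
  ring_nf; rw [Complex.I_sq]; ring

end Pool.Agent.H346R2.Pi
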