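import Pool.Agent.H346R2.Pi.Mn
import Pool.Agent.H346R2.Pi.Prim

/-!
Integrality of the linear forms.
-/

open Polynomial

namespace Pool.Agent.H346R2.Pi

/-- Gaussian integers inside `ℂ` -/
noncomputable def GI : Subring ℂ := GaussianInt.toComplex.range

lemma GI_int (a : ℤ) : (a : ℂ) ∈ GI := by
  exact intCast_mem GI a

lemma GI_nat (a : ℕ) : (a : ℂ) ∈ GI := by
  exact natCast_mem GI a

lemma GI_I : Complex.I ∈ GI := by
  refine ⟨⟨0, 1⟩, ?_⟩
  rw [GaussianInt.toComplex_def']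
  simp

lemma GI_coe (a : GaussianInt) : GaussianInt.toComplex a ∈ GI := ⟨a, rfl⟩

lemma GI_im {z : ℂ} (hz : z ∈ GI) : ∃ b : ℤ, z.im = b := by
  obtain ⟨a, rfl⟩ := hz
  exact ⟨a.im, by simp⟩

/-- `1+i` as a Gaussian integer -/
def p0 : GaussianInt := ⟨1, 1⟩

lemma two_adic_aux (n j : ℕ) : ∃ r : GaussianInt, p0 ^ j * (g n j : GaussianInt) = p0 ^ (12 * n) * r := by
  have h1 : PowerSeries.coeff j (PowerSeries.rescale p0 (G GaussianInt n)) = p0 ^ j * (g n j : GaussianInt) := by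
    rw [PowerSeries.coeff_rescale, coeff_G]
  have hQ : PowerSeries.rescale p0 (((2 + 2 * X + X ^ 2 : GaussianInt[X])) : PowerSeries GaussianInt)
      = PowerSeries.C (p0 ^ 2) * (((C ⟨0, -1⟩ + C ⟨1, -1⟩ * X + X ^ 2 : GaussianInt[X])) : PowerSeries GaussianInt) := by
    have e1 : (((2 + 2 * X + X ^ 2 : GaussianInt[X])) : PowerSeries GaussianInt)
        = 2 + 2 * PowerSeries.X + PowerSeries.X ^ 2 := by
      rw [Polynomial.coe_add, Polynomial.coe_add, Polynomial.coe_mul, Polynomial.coe_pow, Polynomial.coe_X,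
        show (2 : GaussianInt[X]) = C 2 from rfl, Polynomial.coe_C]
      rfl
    have e2 : (((C ⟨0, -1⟩ + C ⟨1, -1⟩ * X + X ^ 2 : GaussianInt[X])) : PowerSeries GaussianInt)
        = PowerSeries.C (⟨0, -1⟩ : GaussianInt) + PowerSeries.C (⟨1, -1⟩ : GaussianInt) * PowerSeries.X
          + PowerSeries.X ^ 2 := by
      rw [Polynomial.coe_add, Polynomial.coe_add, Polynomial.coe_mul, Polynomial.coe_pow, Polynomial.coe_X,
        Polynomial.coe_C, Polynomial.coe_C]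
    rw [e1, e2, map_add, map_add, map_mul, map_pow, map_ofNat, PowerSeries.rescale_X]
    have f1 : (2 : PowerSeries GaussianInt) = PowerSeries.C (p0 ^ 2) * PowerSeries.C (⟨0, -1⟩ : GaussianInt) := by
      rw [← map_mul, show p0 ^ 2 * (⟨0, -1⟩ : GaussianInt) = 2 by decide]
      rfl
    have f2 : (2 : PowerSeries GaussianInt) * PowerSeries.C p0
        = PowerSeries.C (p0 ^ 2) * PowerSeries.C (⟨1, -1⟩ : GaussianInt) := by
      rw [show (2 : PowerSeries GaussianInt) = PowerSeries.C (2 : GaussianInt) from rfl,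
        ← map_mul, ← map_mul, show p0 ^ 2 * (⟨1, -1⟩ : GaussianInt) = 2 * p0 by decide]
    have f3 : PowerSeries.C (p0 ^ 2) = (PowerSeries.C p0) ^ 2 := map_pow _ _ _
    calc (2 : PowerSeries GaussianInt) + 2 * (PowerSeries.C p0 * PowerSeries.X)
          + (PowerSeries.C p0 * PowerSeries.X) ^ 2
        = 2 + (2 * PowerSeries.C p0) * PowerSeries.X + (PowerSeries.C p0) ^ 2 * PowerSeries.X ^ 2 := by ring
      _ = _ := by rw [f2, ← f3]; conv_lhs => rw [f1]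
                  ring
  have h2 : PowerSeries.rescale p0 (G GaussianInt n) = PowerSeries.C (p0 ^ (12 * n)) *
      (PowerSeries.rescale p0 (((1 + X : GaussianInt[X]) : PowerSeries GaussianInt) ^ (18 * n)) *
        PowerSeries.rescale p0 (((1 + 2 * X + 2 * X ^ 2 : GaussianInt[X]) : PowerSeries GaussianInt) ^ (6 * n)) *
        (((C ⟨0, -1⟩ + C ⟨1, -1⟩ * X + X ^ 2 : GaussianInt[X])) : PowerSeries GaussianInt) ^ (6 * n) *
        PowerSeries.rescale p0 (geo (1 : GaussianInt) ^ (14 * n))) := by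
    have e3 : PowerSeries.C (p0 ^ (12 * n)) = (PowerSeries.C (p0 ^ 2)) ^ (6 * n) := by
      rw [← map_pow, ← pow_mul]; congr 2; ring
    rw [G, Num, Polynomial.coe_mul, Polynomial.coe_pow, Polynomial.coe_pow, Polynomial.coe_mul, mul_pow,
      map_mul, map_mul, map_mul, map_pow (PowerSeries.rescale p0) (((2 + 2 * X + X ^ 2 : GaussianInt[X])) : PowerSeries GaussianInt),
      hQ, mul_pow, e3]
    ring
  refine ⟨PowerSeries.coeff j (PowerSeries.rescale p0 (((1 + X : GaussianInt[X]) : PowerSeries GaussianInt) ^ (18 * n)) *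
        PowerSeries.rescale p0 (((1 + 2 * X + 2 * X ^ 2 : GaussianInt[X]) : PowerSeries GaussianInt) ^ (6 * n)) *
        (((C ⟨0, -1⟩ + C ⟨1, -1⟩ * X + X ^ 2 : GaussianInt[X])) : PowerSeries GaussianInt) ^ (6 * n) *
        PowerSeries.rescale p0 (geo (1 : GaussianInt) ^ (14 * n))), ?_⟩
  rw [← h1, h2, PowerSeries.coeff_C_mul]

lemma two_adic (n j : ℕ) (hj : j ≤ 14 * n) : (2 : ℂ) ^ n * (g n j : ℂ) * zz ^ (14 * n - j) ∈ GI := by
  obtain ⟨r, hr⟩ := two_adic_aux n j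
  have h1 := congrArg GaussianInt.toComplex hr
  rw [map_mul, map_mul, map_pow, map_pow, map_intCast] at h1
  obtain ⟨P, hP⟩ : ∃ P : ℂ, P = GaussianInt.toComplex p0 := ⟨_, rfl⟩
  rw [← hP] at h1
  have hP1 : P = 1 + Complex.I := by
    rw [hP, p0, GaussianInt.toComplex_def']; simp
  have hP0 : P ≠ 0 := by
    rw [hP1]; intro h
    have := congrArg Complex.re h
    simp at this
  have hzz : zz = Complex.I / P := by
    rw [eq_div_iff hP0, hP1, zz]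
    ring_nf; rw [Complex.I_sq]; ring
  have hP2 : P ^ 2 = 2 * Complex.I := by
    rw [hP1]; ring_nf; rw [Complex.I_sq]; ring
  have e : (2 : ℂ) ^ n * (g n j : ℂ) * zz ^ (14 * n - j)
      = Complex.I ^ (14 * n - j) * (-Complex.I) ^ n * GaussianInt.toComplex r := by
    rw [hzz, div_pow]
    have hk : P ^ (14 * n - j) ≠ 0 := pow_ne_zero _ hP0
    have hj0 : P ^ j ≠ 0 := pow_ne_zero _ hP0
    have e1 : P ^ j * P ^ (14 * n - j) = P ^ (12 * n) * (2 * Complex.I) ^ n := by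
      rw [← hP2, ← pow_mul, ← pow_add, ← pow_add]; congr 1; omega
    have e2 : (-Complex.I) ^ n * Complex.I ^ n = 1 := by
      rw [← mul_pow]; simp
    have h12 : P ^ (12 * n) ≠ 0 := pow_ne_zero _ hP0
    rw [mul_div_assoc', div_eq_iff hk]
    apply mul_left_cancel₀ hj0
    calc P ^ j * (2 ^ n * (g n j : ℂ) * Complex.I ^ (14 * n - j))
        = 2 ^ n * Complex.I ^ (14 * n - j) * (P ^ j * (g n j : ℂ)) := by ring
      _ = 2 ^ n * Complex.I ^ (14 * n - j) * (P ^ (12 * n) * GaussianInt.toComplex r) := by rw [h1]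
      _ = Complex.I ^ (14 * n - j) * GaussianInt.toComplex r * (P ^ (12 * n) * 2 ^ n) *
            ((-Complex.I) ^ n * Complex.I ^ n) := by rw [e2]; ring
      _ = Complex.I ^ (14 * n - j) * (-Complex.I) ^ n * GaussianInt.toComplex r *
            (P ^ (12 * n) * (2 * Complex.I) ^ n) := by rw [mul_pow]; ring
      _ = P ^ j * (Complex.I ^ (14 * n - j) * (-Complex.I) ^ n * GaussianInt.toComplex r * P ^ (14 * n - j)) := by
            rw [← e1]; ring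
  rw [e]
  exact GI.mul_mem (GI.mul_mem (GI.pow_mem GI_I _) (GI.pow_mem (GI.neg_mem GI_I) _)) (GI_coe r)

lemma bezout_GI (y : ℂ) (a b : ℕ) (hab : Nat.Coprime a b) (ha : (a : ℂ) * y ∈ GI) (hb : (b : ℂ) * y ∈ GI) :
    y ∈ GI := by
  have h := Nat.isCoprime_iff_coprime.mpr hab
  obtain ⟨u, v, huv⟩ := h
  have e : y = (u : ℂ) * ((a : ℂ) * y) + (v : ℂ) * ((b : ℂ) * y) := by
    have : (u : ℂ) * (a : ℂ) + (v : ℂ) * (b : ℂ) = 1 := by exact_mod_cast huv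
    linear_combination -y * this
  rw [e]
  exact GI.add_mem (GI.mul_mem (GI_int u) ha) (GI.mul_mem (GI_int v) hb)

lemma term1 (n j : ℕ) (hn : 1400 ≤ n) (hj : j < 14 * n) :
    (2 : ℂ) ^ n * (Mn n : ℂ) * ((g n j : ℂ) * (-1) ^ j *
      ((zz ^ (14 * n - j) - (zz⁻¹) ^ (14 * n - j)) / ((14 * n - j : ℕ) : ℂ))) ∈ GI := by
  obtain ⟨k, hk⟩ : ∃ k, 14 * n - j = k := ⟨_, rfl⟩
  have hk0 : 0 < k := by omega
  have hkn : k ≤ 14 * n := by omega
  obtain ⟨gk, k', h1, hodd, ⟨m', hm'⟩, ⟨a', ha'⟩⟩ := Mn_dvd n k (g n j) hn hk0 hkn (by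
    intro p hp hpk
    obtain ⟨g1, g2, -, g4⟩ := good_of_mem n p hp
    have := good_g n p k g1 (by omega) g2 hpk hkn
    rwa [show 14 * n - k = j by omega] at this)
  have h2 := two_adic n j hj.le
  rw [hk] at h2 ⊢
  have hzz : zz⁻¹ ∈ GI := by rw [zz_inv]; exact GI.sub_mem GI.one_mem GI_I
  have hgk0 : gk ≠ 0 := by rintro rfl; omega
  have hk'0 : k' ≠ 0 := by rintro rfl; omega
  -- y = a' 2^n zz^k
  have hy : (a' : ℂ) * (2 : ℂ) ^ n * zz ^ k ∈ GI := by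
    apply bezout_GI _ gk (2 ^ k)
    · exact (Nat.coprime_pow_right_iff hk0 _ _).mpr (Nat.coprime_two_right.mpr hodd)
    · have : (gk : ℂ) * ((a' : ℂ) * (2 : ℂ) ^ n * zz ^ k) = (2 : ℂ) ^ n * (g n j : ℂ) * zz ^ k := by
        rw [ha']; push_cast; ring
      rw [this]; exact h2
    · have : ((2 ^ k : ℕ) : ℂ) * ((a' : ℂ) * (2 : ℂ) ^ n * zz ^ k)
          = (a' : ℂ) * ((2 ^ n : ℕ) : ℂ) * (1 + Complex.I) ^ k := by
        rw [zz, div_pow]; push_cast; field_simp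
      rw [this]
      exact GI.mul_mem (GI.mul_mem (GI_int _) (GI_nat _)) (GI.pow_mem (GI.add_mem GI.one_mem GI_I) _)
  have e : (2 : ℂ) ^ n * (Mn n : ℂ) * ((g n j : ℂ) * (-1) ^ j *
      ((zz ^ k - (zz⁻¹) ^ k) / (k : ℂ)))
      = (-1) ^ j * ((m' : ℂ) * ((a' : ℂ) * (2 : ℂ) ^ n * zz ^ k)
        - (m' : ℂ) * (a' : ℂ) * ((2 ^ n : ℕ) : ℂ) * (zz⁻¹) ^ k) := by
    rw [hm', ha', h1]
    push_cast
    have c1 : (gk : ℂ) ≠ 0 := by exact_mod_cast hgk0
    have c2 : (k' : ℂ) ≠ 0 := by exact_mod_cast hk'0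
    field_simp
  rw [e]
  apply GI.mul_mem (GI.pow_mem (GI.neg_mem GI.one_mem) _)
  apply GI.sub_mem
  · exact GI.mul_mem (GI_nat _) hy
  · exact GI.mul_mem (GI.mul_mem (GI.mul_mem (GI_nat _) (GI_int _)) (GI_nat _)) (GI.pow_mem hzz _)

lemma kap_eq (n : ℕ) : (5 : ℂ) ^ (2 * n) * (kap n / 10) = ((10 * 2 ^ (4 * n) : ℕ) : ℂ) := by
  rw [kap]
  push_cast
  have e1 : (100 : ℂ) ^ (14 * n + 1) = 100 * (2 ^ (28 * n) * 5 ^ (28 * n)) := by
    rw [← mul_pow (2 : ℂ) 5, show (2 * 5 : ℂ) = 10 by norm_num, show 28 * n = 2 * (14 * n) by ring,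
      pow_mul (10 : ℂ) 2 (14 * n), show (10 : ℂ) ^ 2 = 100 by norm_num, pow_succ]; ring
  have e2 : (25 : ℂ) ^ (9 * n) = 5 ^ (18 * n) := by
    rw [show 18 * n = 2 * (9 * n) by ring, pow_mul (5 : ℂ) 2 (9 * n), show (5 : ℂ) ^ 2 = 25 by norm_num]
  have e3 : (400 : ℂ) ^ (6 * n) = 2 ^ (24 * n) * 5 ^ (12 * n) := by
    rw [show 24 * n = 4 * (6 * n) by ring, show 12 * n = 2 * (6 * n) by ring, pow_mul (2 : ℂ) 4 (6 * n),
      pow_mul (5 : ℂ) 2 (6 * n), ← mul_pow, show ((2 : ℂ) ^ 4 * 5 ^ 2) = 400 by norm_num]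
  rw [e1, e2, e3]
  have h5 : (5 : ℂ) ^ (18 * n) ≠ 0 := pow_ne_zero _ (by norm_num)
  have h5' : (5 : ℂ) ^ (12 * n) ≠ 0 := pow_ne_zero _ (by norm_num)
  have h2 : (2 : ℂ) ^ (24 * n) ≠ 0 := pow_ne_zero _ (by norm_num)
  rw [mul_div_assoc', mul_div_assoc', div_div, div_eq_iff
    (mul_ne_zero (mul_ne_zero h5 (mul_ne_zero h2 h5')) (by norm_num))]
  have f1 : (2 : ℂ) ^ (28 * n) = 2 ^ (4 * n) * 2 ^ (24 * n) := by rw [← pow_add]; congr 1; ring
  have f2 : (5 : ℂ) ^ (2 * n) * 5 ^ (28 * n) = 5 ^ (18 * n) * 5 ^ (12 * n) := by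
    rw [← pow_add, ← pow_add]; congr 1; ring
  rw [f1]
  linear_combination 100 * 2 ^ (4 * n) * 2 ^ (24 * n) * f2

lemma term2 (n j : ℕ) (hn : 1400 ≤ n) (hj : j < 7 * n) :
    (5 : ℂ) ^ (2 * n) * (Mn n : ℂ) * (kap n / 10 * ((h n j : ℂ) *
      (sv zz ^ (2 * (7 * n - 1 - j) + 1) / ((2 * (7 * n - 1 - j) + 1 : ℕ) : ℂ)))) ∈ GI := by
  obtain ⟨m, hm⟩ : ∃ m, 7 * n - 1 - j = m := ⟨_, rfl⟩
  obtain ⟨gk, k', h1, hodd, ⟨m', hm'⟩, ⟨a', ha'⟩⟩ := Mn_dvd n (2 * m + 1) (h n j) hn (by omega) (by omega) (by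
    intro p hp hpk
    obtain ⟨g1, g2, -, g4⟩ := good_of_mem n p hp
    have := good_h n p m g1 (by omega) g2 hpk (by omega)
    rwa [show 7 * n - 1 - m = j by omega] at this)
  rw [hm]
  have hgk0 : gk ≠ 0 := by rintro rfl; omega
  have hk'0 : k' ≠ 0 := by rintro rfl; omega
  have e : (5 : ℂ) ^ (2 * n) * (Mn n : ℂ) * (kap n / 10 * ((h n j : ℂ) *
      (sv zz ^ (2 * m + 1) / ((2 * m + 1 : ℕ) : ℂ))))
      = ((5 : ℂ) ^ (2 * n) * (kap n / 10)) * ((m' : ℂ) * (a' : ℂ)) * sv zz ^ (2 * m + 1) := by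
    have hc : ((2 * m + 1 : ℕ) : ℂ) = (gk : ℂ) * (k' : ℂ) := by rw [h1]; push_cast; ring
    rw [hm', ha', hc]
    push_cast
    have c1 : (gk : ℂ) ≠ 0 := by exact_mod_cast hgk0
    have c2 : (k' : ℂ) ≠ 0 := by exact_mod_cast hk'0
    field_simp
  rw [e, kap_eq]
  apply GI.mul_mem (GI.mul_mem (GI_nat _) (GI.mul_mem (GI_nat _) (GI_int _)))
  apply GI.pow_mem
  rw [sv_zz]
  have : (-1 + 2 * Complex.I : ℂ) = ((-1 : ℤ) : ℂ) + ((2 : ℕ) : ℂ) * Complex.I := by push_cast; ring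
  rw [this]
  exact GI.add_mem (GI_int _) (GI.mul_mem (GI_nat _) GI_I)

/-- the rational part of the linear form -/
noncomputable def w (n : ℕ) : ℝ := (Prim n zz).im - (g n (14 * n) : ℝ) * (Real.pi / 4)

lemma log_zz_im : (Complex.log zz).im = Real.pi / 4 := by
  rw [Complex.log_im]
  have h : zz = ((Real.sqrt 2 / 2 : ℝ) : ℂ) * (Complex.cos ((Real.pi / 4 : ℝ) : ℂ)
      + Complex.sin ((Real.pi / 4 : ℝ) : ℂ) * Complex.I) := by
    rw [← Complex.ofReal_cos, ← Complex.ofReal_sin, Real.cos_pi_div_four, Real.sin_pi_div_four]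
    apply Complex.ext
    · simp [zz]
      have := Real.mul_self_sqrt (show (0 : ℝ) ≤ 2 by norm_num)
      nlinarith
    · simp [zz]
      have := Real.mul_self_sqrt (show (0 : ℝ) ≤ 2 by norm_num)
      nlinarith
  rw [h, Complex.arg_mul_cos_add_sin_mul_I (by positivity)]
  constructor <;> nlinarith [Real.pi_pos]

lemma w_int (n : ℕ) (hn : 1400 ≤ n) :
    ∃ b : ℤ, (2 : ℝ) ^ n * 5 ^ (2 * n) * ((Mn n : ℝ) * w n) = b := by
  have key : (2 : ℂ) ^ n * 5 ^ (2 * n) * (Mn n : ℂ) *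
      (Prim n zz - (g n (14 * n) : ℂ) * Complex.log zz) ∈ GI := by
    have e : (2 : ℂ) ^ n * 5 ^ (2 * n) * (Mn n : ℂ) * (Prim n zz - (g n (14 * n) : ℂ) * Complex.log zz)
        = ((5 ^ (2 * n) : ℕ) : ℂ) * (∑ j ∈ Finset.range (14 * n),
            (2 : ℂ) ^ n * (Mn n : ℂ) * ((g n j : ℂ) * (-1) ^ j *
            ((zz ^ (14 * n - j) - (zz⁻¹) ^ (14 * n - j)) / ((14 * n - j : ℕ) : ℂ))))
          - ((2 ^ n : ℕ) : ℂ) * (∑ j ∈ Finset.range (7 * n),
            (5 : ℂ) ^ (2 * n) * (Mn n : ℂ) * (kap n / 10 * ((h n j : ℂ) *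
            (sv zz ^ (2 * (7 * n - 1 - j) + 1) / ((2 * (7 * n - 1 - j) + 1 : ℕ) : ℂ))))) := by
      rw [Prim, ← Finset.mul_sum, ← Finset.mul_sum, ← Finset.mul_sum]
      push_cast
      ring
    rw [e]
    apply GI.sub_mem
    · apply GI.mul_mem (GI_nat _)
      apply GI.sum_mem
      intro j hj
      exact term1 n j hn (Finset.mem_range.mp hj)
    · apply GI.mul_mem (GI_nat _)
      apply GI.sum_mem
      intro j hj
      exact term2 n j hn (Finset.mem_range.mp hj)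
  obtain ⟨b, hb⟩ := GI_im key
  refine ⟨b, ?_⟩
  rw [← hb]
  have c1 : (2 : ℂ) ^ n * 5 ^ (2 * n) * (Mn n : ℂ) = (((2 : ℝ) ^ n * 5 ^ (2 * n) * (Mn n : ℝ) : ℝ) : ℂ) := by
    push_cast; ring
  have c2 : (g n (14 * n) : ℂ) = (((g n (14 * n) : ℤ) : ℝ) : ℂ) := by push_cast; ring
  rw [c1, Complex.im_ofReal_mul, Complex.sub_im, c2, Complex.im_ofReal_mul, log_zz_im, w]
  ring

end Pool.Agent.H346R2.Pi
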