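import Pool.Agent.H346R2.Pi.Bound
import Pool.Agent.H346R2.Pi.Integ
import Pool.Agent.H346R2.Pi.Coef
import Pool.Agent.H346R2.Pi.Asym
import Pool.Agent.H346R2.Pi.Deduce

/-!
The irrationality measure of `π` with respect to denominators having a large `10`-part.
-/

open Filter

namespace Pool.Agent.H346R2.Pi

lemma exp_one_pow_lt (m : ℕ) : Real.exp m ≤ 2.7182818286 ^ m := by
  have h := Real.exp_one_lt_d9.le
  have : Real.exp (m : ℝ) = Real.exp 1 ^ m := by rw [← Real.exp_nat_mul, mul_one]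
  rw [this]
  exact pow_le_pow_left₀ (Real.exp_pos 1).le h m

lemma exp_one_pow_gt (m : ℕ) : (2.7182818283 : ℝ) ^ m ≤ Real.exp m := by
  have h := Real.exp_one_gt_d9.le
  have : Real.exp (m : ℝ) = Real.exp 1 ^ m := by rw [← Real.exp_nat_mul, mul_one]
  rw [this]
  exact pow_le_pow_left₀ (by norm_num) h m

lemma rho_le : rho ≤ Real.exp (-21.44) := by
  have h1 : rho ^ 25 ≤ Real.exp (-21.44) ^ 25 := by
    rw [← Real.exp_nat_mul, show ((25 : ℕ) : ℝ) * (-21.44) = -((536 : ℕ) : ℝ) by norm_num, Real.exp_neg]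
    have h2 := exp_one_pow_lt 536
    have h3 : rho ^ 25 * (2.7182818286 : ℝ) ^ 536 ≤ 1 := by
      rw [show 536 = 134 * 4 by norm_num, pow_mul]
      unfold rho
      norm_num
    rw [← one_div, le_div_iff₀ (Real.exp_pos _)]
    have h4 : 0 ≤ rho ^ 25 := pow_nonneg rho_pos.le _
    calc rho ^ 25 * Real.exp ((536 : ℕ) : ℝ) ≤ rho ^ 25 * (2.7182818286 : ℝ) ^ 536 :=
          mul_le_mul_of_nonneg_left h2 h4
      _ ≤ 1 := h3
  exact le_of_pow_le_pow_left₀ (by norm_num) (Real.exp_pos _).le h1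

/-- the growth constant -/
noncomputable def Gam : ℝ := ((1 + 7 / 25) ^ 18 * ((1 + 2 * (7 / 25) + 2 * (7 / 25) ^ 2) *
  (2 + 2 * (7 / 25) + (7 / 25) ^ 2)) ^ 6 / (1 - 7 / 25) ^ 14) / (7 / 25) ^ 14

lemma Gam_le : Gam ≤ Real.exp 35.93 := by
  have h1 : Gam ^ 14 ≤ Real.exp 35.93 ^ 14 := by
    have h2 : Real.exp ((503 : ℕ) : ℝ) ≤ Real.exp 35.93 ^ 14 := by
      rw [← Real.exp_nat_mul]
      apply Real.exp_le_exp.mpr
      norm_num
    refine le_trans (le_trans ?_ (exp_one_pow_gt 503)) h2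
    rw [show 503 = 125 * 4 + 3 by norm_num, pow_add, pow_mul]
    unfold Gam
    norm_num
  exact le_of_pow_le_pow_left₀ (by norm_num) (Real.exp_pos _).le h1

lemma gr_le (n : ℕ) : gr n (14 * n) ≤ Real.exp (35.93 * n) := by
  have h := gr_upper n (14 * n) (7 / 25) (by norm_num) (by norm_num)
  have h2 : gr n (14 * n) ≤ Gam ^ n := by
    unfold Gam
    rw [div_pow _ ((7 / 25) ^ 14 : ℝ), ← pow_mul (7 / 25 : ℝ), le_div_iff₀ (by positivity)]
    exact h
  refine h2.trans ?_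
  have hG : 0 ≤ Gam := by unfold Gam; positivity
  calc Gam ^ n ≤ Real.exp 35.93 ^ n := pow_le_pow_left₀ hG Gam_le n
    _ = Real.exp (35.93 * n) := by rw [← Real.exp_nat_mul]; ring_nf

lemma poly_exp (C : ℝ) (b : ℝ) (hb : 0 < b) : ∀ᶠ n : ℕ in atTop,
    C * (14 * (n : ℝ) + 15) ^ 28 ≤ Real.exp (b * n) := by
  have h := (isLittleO_pow_exp_pos_mul_atTop 28 hb).comp_tendsto tendsto_natCast_atTop_atTop
  have h2 := h.bound (show (0 : ℝ) < 1 / ((|C| + 1) * 29 ^ 28) by positivity)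
  filter_upwards [h2, eventually_ge_atTop 1] with n hn hn1
  simp only [Function.comp_apply, norm_pow, Real.norm_eq_abs, Real.abs_exp, Nat.abs_cast] at hn
  have hnR : (1 : ℝ) ≤ n := by exact_mod_cast hn1
  have h3 : (14 * (n : ℝ) + 15) ^ 28 ≤ (29 * n) ^ 28 := by
    apply pow_le_pow_left₀ (by positivity); linarith
  calc C * (14 * (n : ℝ) + 15) ^ 28 ≤ (|C| + 1) * (29 * n) ^ 28 := by
        apply mul_le_mul _ h3 (by positivity) (by positivity)
        linarith [le_abs_self C]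
    _ = ((|C| + 1) * 29 ^ 28) * (n : ℝ) ^ 28 := by ring
    _ ≤ ((|C| + 1) * 29 ^ 28) * (1 / ((|C| + 1) * 29 ^ 28) * Real.exp (b * n)) := by gcongr
    _ = Real.exp (b * n) := by field_simp

/-- coefficient of `π` -/
noncomputable def An (n : ℕ) : ℝ := Mn n * gr n (14 * n)

/-- rational part -/
noncomputable def Bn (n : ℕ) : ℝ := 4 * (Mn n * w n)

lemma An_form (n : ℕ) : An n * Real.pi + Bn n = 4 * (Mn n * (Prim n zz).im) := by
  rw [An, Bn, w, gr_eq]; ring

theorem measure : ∀ᶠ q : ℕ in atTop, ∀ α β : ℕ, 2 ^ α * 5 ^ β ∣ q →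
    Real.log q ≤ 9.1222 * α → 2 * Real.log q ≤ 9.1222 * β →
      ∀ p : ℤ, Real.exp (-(5.289 * Real.log q)) ≤ |q * Real.pi - p| := by
  have hM := Mn_bounds 0.0001 (by norm_num)
  have hsv := sav_ge
  obtain ⟨c0, hc0⟩ : ∃ c0 : ℝ, c0 = 2 ^ 18 * 25 ^ 6 * Real.exp 100 := ⟨_, rfl⟩
  have hP := poly_exp c0 0.0001 (by norm_num)
  have hP16 := poly_exp 16 0.0001 (by norm_num)
  have hall : ∀ᶠ n : ℕ in atTop, (Real.exp ((14 - sav - 0.0001) * n) ≤ Mn n ∧
      (Mn n : ℝ) ≤ Real.exp ((14 - sav + 0.0001) * n)) ∧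
      (Mn (n + 1) : ℝ) ≤ Real.exp ((14 - sav + 0.0001) * ((n + 1 : ℕ) : ℝ)) ∧
      c0 * (14 * (n : ℝ) + 15) ^ 28 ≤ Real.exp (0.0001 * n) ∧
      16 * (14 * (n : ℝ) + 15) ^ 28 ≤ Real.exp (0.0001 * n) ∧ 1400 ≤ n := by
    have hM' : ∀ᶠ n : ℕ in atTop, (Mn (n + 1) : ℝ) ≤ Real.exp ((14 - sav + 0.0001) * ((n + 1 : ℕ) : ℝ)) :=
      ((tendsto_add_atTop_nat 1).eventually hM).mono fun n hn => hn.2
    filter_upwards [hM, hM', hP, hP16, eventually_ge_atTop 1400] with n h1 h2 h3 h4 h5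
    exact ⟨h1, h2, h3, h4, h5⟩
  obtain ⟨n0, hn0⟩ := eventually_atTop.mp hall
  apply abstract_measure Real.pi irrational_pi An Bn n0 48.2472 9.1227 0.0004 5.289 9.1222
  · intro n _
    refine ⟨(Mn n : ℤ) * g n (14 * n), ?_⟩
    rw [An, gr_eq]; push_cast; ring
  · intro n hn
    obtain ⟨-, -, -, -, h5⟩ := hn0 n hn
    obtain ⟨b, hb⟩ := w_int n h5
    refine ⟨4 * b, ?_⟩
    rw [Bn]; push_cast; rw [← hb]; ring
  · intro n hn
    obtain ⟨-, -, -, -, h5⟩ := hn0 n hn
    have h1 : (0 : ℝ) < Mn n := by exact_mod_cast Mn_pos n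
    exact mul_pos h1 (gr_pos n (by omega) _)
  · intro n hn
    obtain ⟨⟨-, h1⟩, -, -, h4, h5⟩ := hn0 n hn
    rw [An_form]
    have hMp : (0 : ℝ) ≤ Mn n := Nat.cast_nonneg _
    have h6 : |(Prim n zz).im| ≤ 4 * rho ^ n := (Complex.abs_im_le_norm _).trans (prim_bound n (by omega))
    have h7 : rho ^ n ≤ Real.exp (-21.44 * n) := by
      calc rho ^ n ≤ Real.exp (-21.44) ^ n := pow_le_pow_left₀ rho_pos.le rho_le n
        _ = Real.exp (-21.44 * n) := by rw [← Real.exp_nat_mul]; ring_nf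
    have h8 : (16 : ℝ) ≤ Real.exp (0.0001 * n) := by
      refine le_trans ?_ h4
      have : (1 : ℝ) ≤ (14 * (n : ℝ) + 15) ^ 28 := one_le_pow₀ (by
        have : (0 : ℝ) ≤ n := Nat.cast_nonneg n
        linarith)
      linarith
    rw [abs_mul, abs_mul, abs_of_nonneg hMp, abs_of_pos (by norm_num : (0 : ℝ) < 4)]
    calc 4 * ((Mn n : ℝ) * |(Prim n zz).im|)
        ≤ 4 * (Real.exp ((14 - sav + 0.0001) * n) * (4 * Real.exp (-21.44 * n))) := by
          apply mul_le_mul_of_nonneg_left _ (by norm_num)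
          apply mul_le_mul h1 _ (abs_nonneg _) (Real.exp_pos _).le
          linarith
      _ = 16 * (Real.exp ((14 - sav + 0.0001) * n) * Real.exp (-21.44 * n)) := by ring
      _ ≤ Real.exp (0.0001 * n) * (Real.exp ((14 - sav + 0.0001) * n) * Real.exp (-21.44 * n)) := by
          gcongr
      _ = Real.exp (0.0001 * n + ((14 - sav + 0.0001) * n + -21.44 * n)) := by
          rw [Real.exp_add, Real.exp_add]
      _ ≤ Real.exp (-(9.1227 * n)) := by
          apply Real.exp_le_exp.mpr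
          have : (0 : ℝ) ≤ n := Nat.cast_nonneg n
          nlinarith
  · intro n hn
    obtain ⟨⟨-, h1⟩, -, -, -, h5⟩ := hn0 n hn
    rw [An]
    calc (Mn n : ℝ) * gr n (14 * n) ≤ Real.exp ((14 - sav + 0.0001) * n) * Real.exp (35.93 * n) := by
          apply mul_le_mul h1 (gr_le n) (gr_nonneg _ _) (Real.exp_pos _).le
      _ = Real.exp ((14 - sav + 0.0001) * n + 35.93 * n) := by rw [Real.exp_add]
      _ ≤ Real.exp (48.2472 * n) := by
          apply Real.exp_le_exp.mpr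
          have : (0 : ℝ) ≤ n := Nat.cast_nonneg n
          nlinarith
  · intro n hn
    obtain ⟨⟨h0, -⟩, h2, h3, -, h5⟩ := hn0 n hn
    rw [An, An]
    have hr := gr_ratio n (by omega)
    have hg := gr_nonneg n (14 * n)
    have hsv14 : sav ≤ 14 := by
      by_contra hcon
      push Not at hcon
      have hMlim := log_Mn_lim
      have hnn : ∀ n : ℕ, 0 ≤ Real.log (Mn n) / n := by
        intro n
        apply div_nonneg _ (Nat.cast_nonneg _)
        apply Real.log_nonneg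
        exact_mod_cast Mn_pos n
      have := ge_of_tendsto' hMlim hnn
      linarith
    have hMM : (Mn (n + 1) : ℝ) ≤ Real.exp 100 * Real.exp (0.0002 * n) * Mn n := by
      calc (Mn (n + 1) : ℝ) ≤ Real.exp ((14 - sav + 0.0001) * ((n + 1 : ℕ) : ℝ)) := h2
        _ ≤ Real.exp (100 + (0.0002 * n + (14 - sav - 0.0001) * n)) := by
            apply Real.exp_le_exp.mpr
            push_cast
            nlinarith
        _ = Real.exp 100 * Real.exp (0.0002 * n) * Real.exp ((14 - sav - 0.0001) * n) := by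
            rw [Real.exp_add, Real.exp_add]; ring
        _ ≤ _ := by gcongr
    calc (Mn (n + 1) : ℝ) * gr (n + 1) (14 * (n + 1))
        ≤ (Real.exp 100 * Real.exp (0.0002 * n) * Mn n) *
            (2 ^ 18 * 25 ^ 6 * (14 * n + 15) ^ 28 * gr n (14 * n)) := by
          apply mul_le_mul hMM hr (gr_nonneg _ _) (by positivity)
      _ = (c0 * (14 * (n : ℝ) + 15) ^ 28) * Real.exp (0.0002 * n) * (Mn n * gr n (14 * n)) := by
          rw [hc0]; ring
      _ ≤ Real.exp (0.0001 * n) * Real.exp (0.0002 * n) * (Mn n * gr n (14 * n)) := by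
          gcongr
      _ = Real.exp (0.0001 * n + 0.0002 * n) * (Mn n * gr n (14 * n)) := by rw [Real.exp_add]
      _ ≤ Real.exp (0.0004 * n) * (Mn n * gr n (14 * n)) := by
          apply mul_le_mul_of_nonneg_right _ (by positivity)
          apply Real.exp_le_exp.mpr
          have : (0 : ℝ) ≤ n := Nat.cast_nonneg n
          linarith
  · norm_num
  · norm_num
  · norm_num
  · norm_num
  · have h2 : Real.log 2 < 0.7 := Real.log_two_lt_d9.trans (by norm_num)
    have h5 : Real.log 5 ≤ 2 := by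
      rw [Real.log_le_iff_le_exp (by norm_num)]
      have := exp_one_pow_gt 2
      refine le_trans ?_ this
      norm_num
    linarith
  · norm_num

end Pool.Agent.H346R2.Pi
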