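import Pool.Agent.H346R2.Pi.ModP

/-!
The set of good primes used, and the reduced common denominators `Mn`.
-/

open Polynomial

namespace Pool.Agent.H346R2.Pi

/-- the intervals (in units of `1/126`) for `n/p` -/
def Lf : Finset (ℕ × ℕ) :=
  ((Finset.range 10).image fun j => (126 * j + 21, 126 * j + 27)) ∪
  ((Finset.range 10).image fun j => (126 * j + 42, 126 * j + 45)) ∪
  ((Finset.range 10).image fun j => (126 * j + 105, 126 * j + 108)) ∪
  ((Finset.range 9).image fun j => (126 * j + 133, 126 * j + 135))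

/-- primes `p` with `u p ≤ 126 n < v p` -/
def Pset (n : ℕ) (uv : ℕ × ℕ) : Finset ℕ :=
  (Finset.range (14 * n + 1)).filter fun p => p.Prime ∧ uv.1 * p ≤ 126 * n ∧ 126 * n < uv.2 * p

/-- the good primes used -/
def Om (n : ℕ) : Finset ℕ := Lf.biUnion (Pset n)

lemma Lf_disj : ∀ x ∈ Lf, ∀ y ∈ Lf, x ≠ y → x.2 ≤ y.1 ∨ y.2 ≤ x.1 := by
  decide +kernel

lemma Lf_bds : ∀ x ∈ Lf, 21 ≤ x.1 ∧ x.1 < x.2 ∧ x.2 ≤ 1242 := by
  decide +kernel

lemma Pset_disj (n : ℕ) : (Lf : Set (ℕ × ℕ)).PairwiseDisjoint (Pset n) := by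
  intro x hx y hy hxy
  rw [Function.onFun, Finset.disjoint_left]
  intro p hp hq
  simp only [Pset, Finset.mem_filter] at hp hq
  rcases Lf_disj x hx y hy hxy with h | h
  · have := Nat.mul_le_mul_right p h
    omega
  · have := Nat.mul_le_mul_right p h
    omega

lemma good_of_mem (n p : ℕ) (hp : p ∈ Om n) : p.Prime ∧ Good n p ∧ p ≤ 14 * n ∧ 126 * n < 1242 * p := by
  simp only [Om, Finset.mem_biUnion, Pset, Finset.mem_filter, Finset.mem_range] at hp
  obtain ⟨x, hx, hpn, hpp, h1, h2⟩ := hp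
  have hb := Lf_bds x hx
  refine ⟨hpp, ?_, by omega, lt_of_lt_of_le h2 (Nat.mul_le_mul_right p hb.2.2)⟩
  have hp0 := hpp.pos
  simp only [Lf, Finset.mem_union, Finset.mem_image, Finset.mem_range] at hx
  rcases hx with ((⟨j, -, rfl⟩ | ⟨j, -, rfl⟩) | ⟨j, -, rfl⟩) | ⟨j, -, rfl⟩
  · simp only at h1 h2
    obtain ⟨P, hP⟩ : ∃ P, P = j * p := ⟨_, rfl⟩
    have e1 : (126 * j + 21) * p = 126 * P + 21 * p := by rw [hP]; ring
    have e2 : (126 * j + 27) * p = 126 * P + 27 * p := by rw [hP]; ring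
    rw [e1] at h1
    rw [e2] at h2
    have e3 : p * (18 * j + 3) = 18 * P + 3 * p := by rw [hP]; ring
    have e4 : p * (6 * j + 1) = 6 * P + p := by rw [hP]; ring
    have e5 : p * (14 * j + 2) = 14 * P + 2 * p := by rw [hP]; ring
    refine ⟨18 * j + 3, 6 * j + 1, 14 * j + 2, 18 * n - (18 * P + 3 * p), 6 * n - (6 * P + p),
      14 * n - (14 * P + 2 * p), 14 * P + 3 * p - 14 * n, ?_, ?_, ?_, ?_, ?_, ?_⟩
    · omega
    · omega
    · omega
    · omega
    · omega
    · left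
      rcases hpp.eq_two_or_odd' with h | ⟨s, hs⟩
      · exfalso; omega
      · exact ⟨7 * P + 3 * s + 1 - 7 * n, by omega⟩
  · simp only at h1 h2
    obtain ⟨P, hP⟩ : ∃ P, P = j * p := ⟨_, rfl⟩
    have e1 : (126 * j + 42) * p = 126 * P + 42 * p := by rw [hP]; ring
    have e2 : (126 * j + 45) * p = 126 * P + 45 * p := by rw [hP]; ring
    rw [e1] at h1
    rw [e2] at h2
    have e3 : p * (18 * j + 6) = 18 * P + 6 * p := by rw [hP]; ring
    have e4 : p * (6 * j + 2) = 6 * P + 2 * p := by rw [hP]; ring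
    have e5 : p * (14 * j + 4) = 14 * P + 4 * p := by rw [hP]; ring
    refine ⟨18 * j + 6, 6 * j + 2, 14 * j + 4, 18 * n - (18 * P + 6 * p), 6 * n - (6 * P + 2 * p),
      14 * n - (14 * P + 4 * p), 14 * P + 6 * p - 14 * n, ?_, ?_, ?_, ?_, ?_, ?_⟩
    · omega
    · omega
    · omega
    · omega
    · omega
    · right; omega
  · simp only at h1 h2
    obtain ⟨P, hP⟩ : ∃ P, P = j * p := ⟨_, rfl⟩
    have e1 : (126 * j + 105) * p = 126 * P + 105 * p := by rw [hP]; ring
    have e2 : (126 * j + 108) * p = 126 * P + 108 * p := by rw [hP]; ring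
    rw [e1] at h1
    rw [e2] at h2
    have e3 : p * (18 * j + 15) = 18 * P + 15 * p := by rw [hP]; ring
    have e4 : p * (6 * j + 5) = 6 * P + 5 * p := by rw [hP]; ring
    have e5 : p * (14 * j + 11) = 14 * P + 11 * p := by rw [hP]; ring
    refine ⟨18 * j + 15, 6 * j + 5, 14 * j + 11, 18 * n - (18 * P + 15 * p), 6 * n - (6 * P + 5 * p),
      14 * n - (14 * P + 11 * p), 14 * P + 13 * p - 14 * n, ?_, ?_, ?_, ?_, ?_, ?_⟩
    · omega
    · omega
    · omega
    · omega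
    · omega
    · right; omega
  · simp only at h1 h2
    obtain ⟨P, hP⟩ : ∃ P, P = j * p := ⟨_, rfl⟩
    have e1 : (126 * j + 133) * p = 126 * P + 133 * p := by rw [hP]; ring
    have e2 : (126 * j + 135) * p = 126 * P + 135 * p := by rw [hP]; ring
    rw [e1] at h1
    rw [e2] at h2
    have e3 : p * (18 * j + 19) = 18 * P + 19 * p := by rw [hP]; ring
    have e4 : p * (6 * j + 6) = 6 * P + 6 * p := by rw [hP]; ring
    have e5 : p * (14 * j + 14) = 14 * P + 14 * p := by rw [hP]; ring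
    refine ⟨18 * j + 19, 6 * j + 6, 14 * j + 14, 18 * n - (18 * P + 19 * p), 6 * n - (6 * P + 6 * p),
      14 * n - (14 * P + 14 * p), 14 * P + 15 * p - 14 * n, ?_, ?_, ?_, ?_, ?_, ?_⟩
    · omega
    · omega
    · omega
    · omega
    · omega
    · left
      rcases hpp.eq_two_or_odd' with h | ⟨s, hs⟩
      · exfalso; omega
      · exact ⟨7 * P + 15 * s + 7 - 7 * n, by omega⟩

/-- product of the good primes -/
def Dn (n : ℕ) : ℕ := ∏ p ∈ Om n, p

/-- the reduced common denominator -/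
def Mn (n : ℕ) : ℕ := Nat.lcmUpto (14 * n) / Dn n

lemma Dn_dvd (n : ℕ) : Dn n ∣ Nat.lcmUpto (14 * n) := by
  apply Finset.prod_primes_dvd
  · intro p hp
    exact (good_of_mem n p hp).1.prime
  · intro p hp
    obtain ⟨h1, -, h3, -⟩ := good_of_mem n p hp
    exact Finset.dvd_lcm (f := id) (Finset.mem_Icc.mpr ⟨h1.one_le, h3⟩)

lemma Mn_mul (n : ℕ) : Mn n * Dn n = Nat.lcmUpto (14 * n) := Nat.div_mul_cancel (Dn_dvd n)

lemma Mn_pos (n : ℕ) : 0 < Mn n :=
  Nat.div_pos (Nat.le_of_dvd (Nat.lcmUpto_pos _) (Dn_dvd n))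
    (Finset.prod_pos fun p hp => (good_of_mem n p hp).1.pos)

lemma sq_gt (n p : ℕ) (hn : 1400 ≤ n) (hp : p ∈ Om n) : 14 * n < p * p := by
  obtain ⟨-, -, -, h4⟩ := good_of_mem n p hp
  have h1 : 138 ≤ p := by omega
  nlinarith

lemma Mn_dvd (n k : ℕ) (a : ℤ) (hn : 1400 ≤ n) (hk : 0 < k) (hkn : k ≤ 14 * n)
    (ha : ∀ p ∈ Om n, p ∣ k → (p : ℤ) ∣ a) :
    ∃ gk k' : ℕ, k = gk * k' ∧ Odd gk ∧ k' ∣ Mn n ∧ (gk : ℤ) ∣ a := by
  classical
  set gk := ∏ p ∈ (Om n).filter (fun p => p ∣ k), p with hgk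
  have h1 : gk ∣ k := by
    apply Finset.prod_primes_dvd
    · intro p hp
      exact (good_of_mem n p (Finset.mem_filter.mp hp).1).1.prime
    · intro p hp
      exact (Finset.mem_filter.mp hp).2
  obtain ⟨k', hk'⟩ := h1
  refine ⟨gk, k', hk', ?_, ?_, ?_⟩
  · rw [hgk]
    apply Finset.prod_induction (p := Odd) 
    · intro a b ha hb; exact ha.mul hb
    · exact odd_one
    · intro p hp
      obtain ⟨h1, -, -, h4⟩ := good_of_mem n p (Finset.mem_filter.mp hp).1
      rcases h1.eq_two_or_odd' with h | h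
      · omega
      · exact h
  · have hcop : Nat.Coprime k' (Dn n) := by
      apply Nat.Coprime.prod_right
      intro p hp
      rw [Nat.coprime_comm, (good_of_mem n p hp).1.coprime_iff_not_dvd]
      intro hpk
      have h2 : p ∣ k := by rw [hk']; exact hpk.mul_left _
      have h3 : p ∣ gk := by
        rw [hgk]
        exact Finset.dvd_prod_of_mem (fun p => p) (Finset.mem_filter.mpr ⟨hp, h2⟩)
      have h4 : p * p ∣ k := by rw [hk']; exact Nat.mul_dvd_mul h3 hpk
      have h5 := Nat.le_of_dvd hk h4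
      have := sq_gt n p hn hp
      omega
    have h2 : k' ∣ Mn n * Dn n := by
      rw [Mn_mul]
      have h3 : k' ∣ k := by rw [hk']; exact dvd_mul_left _ _
      exact h3.trans (Finset.dvd_lcm (f := id) (Finset.mem_Icc.mpr ⟨hk, hkn⟩))
    exact hcop.dvd_of_dvd_mul_right h2
  · rw [Int.natCast_dvd]
    apply Finset.prod_primes_dvd
    · intro p hp
      exact (good_of_mem n p (Finset.mem_filter.mp hp).1).1.prime
    · intro p hp
      obtain ⟨hp1, hp2⟩ := Finset.mem_filter.mp hp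
      exact Int.natCast_dvd.mp (ha p hp1 hp2)

end Pool.Agent.H346R2.Pi
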